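import Pool.Agent.Helper60.SY.Slab

/-!
# Levels of caps (for row RLN of project MP_a2630c_SY)
-/

open MeasureTheory Set Metric Real Filter Topology
open scoped RealInnerProductSpace ENNReal
open Pool.Agent.Helper16.Buoy (E cap)
open Pool.Agent.Helper73.HV (supp)
open Pool.Agent.Helper73.LR (CB vol GG Sol aff)
open Pool.Agent.Helper73.SY
open Pool.Agent.Helper51.HV (hyper_null cap_meas cap_subset)
open Pool.Agent.Helper65.LR (le_supp supp_greatest)

namespace Pool.Agent.Helper60.SY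

variable {n : ℕ} {K : Set (E n)} {δ lam : ℝ} {X : E n → E n} {t : E n → ℝ}

theorem cb_ne (hK : CB K) : K.Nonempty := hK.int.mono interior_subset

theorem int_lt_supp (hK : CB K) {x w : E n} (hx : x ∈ interior K) (hw : w ≠ 0) :
    inner ℝ w x < supp K w := by
  have hn : 0 < ‖w‖ := norm_pos_iff.2 hw
  obtain ⟨r, hr, hb⟩ := Metric.mem_nhds_iff.1 (mem_interior_iff_mem_nhds.1 hx)
  have h1 : x + (r / (2 * ‖w‖)) • w ∈ K := by
    apply hb
    rw [mem_ball, dist_eq_norm]
    have : x + (r / (2 * ‖w‖)) • w - x = (r / (2 * ‖w‖)) • w := by abel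
    rw [this, norm_smul, Real.norm_eq_abs, abs_of_pos (by positivity)]
    have : r / (2 * ‖w‖) * ‖w‖ = r / 2 := by field_simp
    rw [this]
    linarith
  have h2 := le_supp hK.comp h1 w
  rw [inner_add_right, inner_smul_right, real_inner_self_eq_norm_sq] at h2
  have h3 : 0 < r / (2 * ‖w‖) * ‖w‖ ^ 2 := by positivity
  linarith

theorem lo_le (hK : CB K) {x : E n} (hx : x ∈ K) (u : E n) : -supp K (-u) ≤ inner ℝ u x := by
  have := le_supp hK.comp hx (-u)
  rw [inner_neg_left] at this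
  linarith

theorem int_hyp (hK : CB K) {u : E n} {τ : ℝ} (h1 : -supp K (-u) < τ) (h2 : τ < supp K u) :
    ∃ x ∈ interior K, inner ℝ u x = τ := by
  have hcl : closure (interior K) = closure K :=
    hK.conv.closure_interior_eq_closure_of_nonempty_interior hK.int
  have hc : Continuous (fun x : E n => (inner ℝ u x : ℝ)) := by fun_prop
  obtain ⟨x1, hx1, hx1e⟩ := (supp_greatest hK.comp (cb_ne hK) u).1
  obtain ⟨x2, hx2, hx2e⟩ := (supp_greatest hK.comp (cb_ne hK) (-u)).1
  simp only at hx1e hx2e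
  rw [inner_neg_left] at hx2e
  obtain ⟨y1, hy1, hy1i⟩ : ({x : E n | τ < inner ℝ u x} ∩ interior K).Nonempty := by
    have hm : x1 ∈ closure (interior K) := by rw [hcl]; exact subset_closure hx1
    exact mem_closure_iff.1 hm _ (isOpen_lt continuous_const hc) (by
      show τ < inner ℝ u x1
      rw [hx1e]; exact h2)
  obtain ⟨y2, hy2, hy2i⟩ : ({x : E n | inner ℝ u x < τ} ∩ interior K).Nonempty := by
    have hm : x2 ∈ closure (interior K) := by rw [hcl]; exact subset_closure hx2
    exact mem_closure_iff.1 hm _ (isOpen_lt hc continuous_const) (by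
      show inner ℝ u x2 < τ
      linarith)
  have hy1' : τ < inner ℝ u y1 := hy1
  have hy2' : (inner ℝ u y2 : ℝ) < τ := hy2
  set a : ℝ := inner ℝ u y1 with ha
  set b : ℝ := inner ℝ u y2 with hb
  have hab : 0 < a - b := by linarith
  refine ⟨((a - τ) / (a - b)) • y2 + ((τ - b) / (a - b)) • y1, ?_, ?_⟩
  · refine hK.conv.interior hy2i hy1i (div_nonneg (by linarith) hab.le)
      (div_nonneg (by linarith) hab.le) ?_
    rw [← add_div]
    rw [div_eq_one_iff_eq hab.ne']
    ring
  · rw [inner_add_right, inner_smul_right, inner_smul_right, ← ha, ← hb]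
    field_simp
    ring

theorem cap_lt (hK : CB K) {u : E n} (hu : u ≠ 0) {τ τ' : ℝ} (h : τ < τ') (h1 : -supp K (-u) < τ')
    (h2 : τ < supp K u) : volume (cap K u τ') < volume (cap K u τ) := by
  have hc : Continuous (fun x : E n => (inner ℝ u x : ℝ)) := by fun_prop
  have h12' : -supp K (-u) < supp K u := by
    obtain ⟨x, hx⟩ := hK.int
    have := int_lt_supp hK hx hu
    exact (lo_le hK (interior_subset hx) u).trans_lt this
  obtain ⟨m, hm1, hm2⟩ := exists_between (a₁ := max τ (-supp K (-u)))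
    (a₂ := min τ' (supp K u)) (max_lt (lt_min h h2) (lt_min h1 h12'))
  rw [max_lt_iff] at hm1
  rw [lt_min_iff] at hm2
  obtain ⟨x, hx, hxe⟩ := int_hyp hK hm1.2 hm2.2
  set O : Set (E n) := interior K ∩ {x | τ < inner ℝ u x ∧ (inner ℝ u x : ℝ) < τ'} with hO
  have hOo : IsOpen O := isOpen_interior.inter
    ((isOpen_lt continuous_const hc).inter (isOpen_lt hc continuous_const))
  have hOp : 0 < volume O := hOo.measure_pos volume ⟨x, hx, by
    show τ < inner ℝ u x ∧ (inner ℝ u x : ℝ) < τ'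
    rw [hxe]; exact ⟨hm1.1, hm2.1⟩⟩
  have hdis : Disjoint (cap K u τ') O := by
    rw [Set.disjoint_left]
    rintro y ⟨_, hy⟩ ⟨_, _, hy'⟩
    have : τ' ≤ inner ℝ u y := hy
    linarith
  have hsub : cap K u τ' ∪ O ⊆ cap K u τ := by
    rintro y (⟨hy1, hy2⟩ | ⟨hy1, hy2, hy3⟩)
    · exact ⟨hy1, le_trans h.le hy2⟩
    · exact ⟨interior_subset hy1, hy2.le⟩
  have hfin : volume (cap K u τ') ≠ ∞ :=
    ne_top_of_le_ne_top hK.comp.measure_lt_top.ne (measure_mono (cap_subset u τ'))
  calc volume (cap K u τ') < volume (cap K u τ') + volume O := ENNReal.lt_add_right hfin hOp.ne'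
    _ = volume (cap K u τ' ∪ O) := (measure_union hdis hOo.measurableSet).symm
    _ ≤ volume (cap K u τ) := measure_mono hsub

theorem cap_fin (hK : CB K) (u : E n) (τ : ℝ) : volume (cap K u τ) ≠ ∞ :=
  ne_top_of_le_ne_top hK.comp.measure_lt_top.ne (measure_mono (cap_subset u τ))

/-- Two levels whose half-spaces are nested on `K` cannot be strictly nested. -/
theorem dom (D : Dat K δ lam X t) {u v : E n} (hu : u ≠ 0) (hv : v ≠ 0)
    (h : ∀ x ∈ K, inner ℝ u x - t u ≤ inner ℝ v x - t v) {x0 : E n} (hx : x0 ∈ interior K)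
    (hxu : inner ℝ u x0 = t u) : inner ℝ v x0 ≤ t v := by
  by_contra hcon
  push Not at hcon
  have hc : Continuous (fun x : E n => (inner ℝ v x : ℝ)) := by fun_prop
  have hW : interior K ∩ {x | t v < inner ℝ v x} ∈ 𝓝 x0 :=
    (isOpen_interior.inter (isOpen_lt continuous_const hc)).mem_nhds ⟨hx, hcon⟩
  obtain ⟨w, hw, h0, hh0, hs⟩ := slab hW hu hxu
  have h1 := hs (h0 / 2) (by positivity) (by linarith)
  have hsub : cap K u (t u) ⊆ cap K v (t v) := by
    rintro x ⟨hx1, hx2⟩
    have hx2' : t u ≤ inner ℝ u x := hx2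
    refine ⟨hx1, ?_⟩
    show t v ≤ inner ℝ v x
    have := h x hx1
    linarith
  have hdiff : volume (cap K v (t v) \ cap K u (t u)) = 0 := by
    rw [measure_sdiff hsub (cap_meas D.cs.cb.comp u (t u)).nullMeasurableSet (cap_fin D.cs.cb _ _),
      D.tvol u hu, D.tvol v hv, tsub_self]
  have hsub2 : (interior K ∩ {x | t v < inner ℝ v x}) ∩ slb u (t u) (h0 / 2) ⊆
      cap K v (t v) \ cap K u (t u) := by
    rintro x ⟨⟨hx1, hx2⟩, hx3, hx4⟩
    refine ⟨⟨interior_subset hx1, ?_⟩, ?_⟩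
    · have hx2' : t v < inner ℝ v x := hx2
      exact hx2'.le
    · rintro ⟨_, hx5⟩
      have : t u ≤ inner ℝ u x := hx5
      linarith
  have h2 := h1.trans (measure_mono hsub2)
  rw [hdiff] at h2
  have h3 : 0 < ENNReal.ofReal (w * (h0 / 2)) := ENNReal.ofReal_pos.2 (by positivity)
  exact absurd h2 (not_le.2 h3)

theorem ue (e f : E n) (κ : ℝ) (x : E n) :
    inner ℝ (κ • e + f) x = κ * inner ℝ e x + (inner ℝ f x : ℝ) := by
  rw [inner_add_left, real_inner_smul_left]

theorem ue_ne {e f : E n} (h : ON e f) (κ : ℝ) : κ • e + f ≠ 0 := by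
  intro h0
  have h1 := ue e f κ f
  rw [h0, inner_zero_left, h.pq, qq h] at h1
  linarith

theorem lev (D : Dat K δ lam X t) {e f : E n} (hef : ON e f) : ∃ a b R0 : ℝ,
    -supp K (-e) < a ∧ b < supp K e ∧ 0 < R0 ∧ ∀ κ : ℝ, R0 ≤ κ → ∀ x ∈ K,
      (b ≤ inner ℝ e x → t (κ • e + f) ≤ inner ℝ (κ • e + f) x) ∧
      (inner ℝ e x ≤ a → inner ℝ (κ • e + f) x < t (κ • e + f)) := by
  have hK := D.cs.cb
  have he : e ≠ 0 := by
    intro h0
    have := hef.p1
    rw [h0, norm_zero] at this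
    norm_num at this
  obtain ⟨C0, hC0⟩ := hK.comp.exists_bound_of_continuousOn (f := fun x : E n => (inner ℝ f x : ℝ))
    (by fun_prop)
  set C := |C0| + 1 with hC
  have hCpos : 0 < C := by positivity
  have hCb : ∀ x ∈ K, |(inner ℝ f x : ℝ)| ≤ C := fun x hx => by
    have h1 : ‖(inner ℝ f x : ℝ)‖ ≤ C0 := hC0 x hx
    rw [Real.norm_eq_abs] at h1
    have := le_abs_self C0
    linarith
  have t1 := D.tlo e he
  have t2 := D.tup e he
  set b0 := (t e + supp K e) / 2 with hb0
  set a0 := (t e + -supp K (-e)) / 2 with ha0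
  have hb : volume (cap K e b0) < ENNReal.ofReal δ := by
    rw [← D.tvol e he]
    exact cap_lt hK he (by linarith) (by linarith) (by linarith)
  have ha : ENNReal.ofReal δ < volume (cap K e a0) := by
    rw [← D.tvol e he]
    exact cap_lt hK he (by linarith) (by linarith) (by linarith)
  have ub : ∀ κ : ℝ, 0 < κ → t (κ • e + f) ≤ κ * b0 + C := by
    intro κ hκ
    by_contra hcon
    push Not at hcon
    have hsub : cap K (κ • e + f) (t (κ • e + f)) ⊆ cap K e b0 := by
      rintro x ⟨hx1, hx2⟩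
      have hx2' : t (κ • e + f) ≤ inner ℝ (κ • e + f) x := hx2
      refine ⟨hx1, ?_⟩
      show b0 ≤ inner ℝ e x
      rw [ue] at hx2'
      have h1 := (abs_le.1 (hCb x hx1)).2
      have h2 : κ * b0 ≤ κ * inner ℝ e x := by linarith
      exact le_of_mul_le_mul_left h2 hκ
    have := (measure_mono hsub).trans_lt hb
    rw [D.tvol _ (ue_ne hef κ)] at this
    exact lt_irrefl _ this
  have lb : ∀ κ : ℝ, 0 < κ → κ * a0 - C ≤ t (κ • e + f) := by
    intro κ hκ
    by_contra hcon
    push Not at hcon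
    have hsub : cap K e a0 ⊆ cap K (κ • e + f) (t (κ • e + f)) := by
      rintro x ⟨hx1, hx2⟩
      have hx2' : a0 ≤ inner ℝ e x := hx2
      refine ⟨hx1, ?_⟩
      show t (κ • e + f) ≤ inner ℝ (κ • e + f) x
      rw [ue]
      have h1 := (abs_le.1 (hCb x hx1)).1
      have h2 : κ * a0 ≤ κ * inner ℝ e x := mul_le_mul_of_nonneg_left hx2' hκ.le
      linarith
    have := ha.trans_le (measure_mono hsub)
    rw [D.tvol _ (ue_ne hef κ)] at this
    exact lt_irrefl _ this
  set b := (b0 + supp K e) / 2 with hbd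
  set a := (a0 + -supp K (-e)) / 2 with had
  have d1 : 0 < b - b0 := by linarith
  have d2 : 0 < a0 - a := by linarith
  set m := min (b - b0) (a0 - a) with hm
  have hm0 : 0 < m := lt_min d1 d2
  refine ⟨a, b, (2 * C + 1) / m, by linarith, by linarith, by positivity, ?_⟩
  intro κ hκ x hx
  have hR : 0 < (2 * C + 1) / m := by positivity
  have hκ0 : 0 < κ := lt_of_lt_of_le hR hκ
  have h1 : 2 * C + 1 ≤ κ * m := by rwa [div_le_iff₀ hm0] at hκ
  have h2 : κ * m ≤ κ * (b - b0) := mul_le_mul_of_nonneg_left (min_le_left _ _) hκ0.le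
  have h3 : κ * m ≤ κ * (a0 - a) := mul_le_mul_of_nonneg_left (min_le_right _ _) hκ0.le
  have h4 := abs_le.1 (hCb x hx)
  have h5 := ub κ hκ0
  have h6 := lb κ hκ0
  rw [ue]
  constructor
  · intro hbx
    have h7 : κ * b ≤ κ * inner ℝ e x := mul_le_mul_of_nonneg_left hbx hκ0.le
    nlinarith
  · intro hax
    have h7 : κ * inner ℝ e x ≤ κ * a := mul_le_mul_of_nonneg_left hax hκ0.le
    nlinarith

end Pool.Agent.Helper60.SY
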