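import Pool.Agent.Helper60.SY.Lvl

/-!
# The one-dimensional maximum principle (row RLN of project MP_a2630c_SY)
-/

open MeasureTheory Set Metric Real Filter Topology
open scoped RealInnerProductSpace ENNReal
open Pool.Agent.Helper16.Buoy (E cap)
open Pool.Agent.Helper73.HV (supp)
open Pool.Agent.Helper73.LR (CB vol GG Sol aff)
open Pool.Agent.Helper73.SY
open Pool.Agent.Helper51.HV (hyper_null cap_meas cap_subset int_on)
open Pool.Agent.Helper65.LR (le_supp supp_greatest cap_int)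

namespace Pool.Agent.Helper60.SY

variable {n : ℕ} {K : Set (E n)} {δ lam : ℝ} {X : E n → E n} {t : E n → ℝ} {e f : E n}

/-- The cap with normal `κ e + f`. -/
def CC (K : Set (E n)) (t : E n → ℝ) (e f : E n) (κ : ℝ) : Set (E n) :=
  cap K (κ • e + f) (t (κ • e + f))

theorem mem_CC {κ : ℝ} {x : E n} : x ∈ CC K t e f κ ↔
    x ∈ K ∧ t (κ • e + f) ≤ inner ℝ (κ • e + f) x := Iff.rfl

theorem e_ne (P : Prof K X e f) : e ≠ 0 := by
  intro h0
  have := P.ef.p1
  rw [h0, norm_zero] at this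
  norm_num at this

theorem zc (D : Dat K δ lam X t) (P : Prof K X e f) {κ1 κ2 : ℝ} (h : κ1 < κ2) :
    ∃ κc, t (κ2 • e + f) - t (κ1 • e + f) = (κ2 - κ1) * zz X e f κc := by
  have hK := D.cs.cb
  have he := e_ne P
  have hd : 0 < κ2 - κ1 := by linarith
  have h1 : -supp K (-e) < (t (κ2 • e + f) - t (κ1 • e + f)) / (κ2 - κ1) := by
    by_contra hcon
    push Not at hcon
    rw [div_le_iff₀ hd] at hcon
    obtain ⟨x0, hx0, hx0e⟩ := int_hyp hK (D.tlo _ (ue_ne P.ef κ1)) (D.tup _ (ue_ne P.ef κ1))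
    have h2 := dom D (ue_ne P.ef κ1) (ue_ne P.ef κ2) (fun x hx => by
      have := lo_le hK hx e
      rw [ue, ue]
      nlinarith) hx0 hx0e
    rw [ue] at hx0e h2
    have h3 := int_lt_supp hK hx0 (neg_ne_zero.2 he)
    rw [inner_neg_left] at h3
    nlinarith
  have h2 : (t (κ2 • e + f) - t (κ1 • e + f)) / (κ2 - κ1) < supp K e := by
    by_contra hcon
    push Not at hcon
    rw [le_div_iff₀ hd] at hcon
    obtain ⟨x0, hx0, hx0e⟩ := int_hyp hK (D.tlo _ (ue_ne P.ef κ2)) (D.tup _ (ue_ne P.ef κ2))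
    have h2 := dom D (ue_ne P.ef κ2) (ue_ne P.ef κ1) (fun x hx => by
      have := le_supp hK.comp hx e
      rw [ue, ue]
      nlinarith) hx0 hx0e
    rw [ue] at hx0e h2
    have h3 := int_lt_supp hK hx0 he
    nlinarith
  obtain ⟨κc, hκc⟩ := P.zsurj _ h1 h2
  refine ⟨κc, ?_⟩
  rw [hκc]
  field_simp

theorem sd_right {κ1 κ2 z : ℝ} (h : κ1 < κ2)
    (hz : t (κ2 • e + f) - t (κ1 • e + f) = (κ2 - κ1) * z) {x : E n}
    (hx : x ∈ CC K t e f κ2 \ CC K t e f κ1) : z < inner ℝ e x := by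
  obtain ⟨⟨hxK, h2⟩, h1⟩ := hx
  have h2' : t (κ2 • e + f) ≤ inner ℝ (κ2 • e + f) x := h2
  have h1' : inner ℝ (κ1 • e + f) x < t (κ1 • e + f) := by
    by_contra hcon
    push Not at hcon
    exact h1 ⟨hxK, hcon⟩
  rw [ue] at h1' h2'
  have h3 : (κ2 - κ1) * z < (κ2 - κ1) * inner ℝ e x := by linarith
  exact lt_of_mul_lt_mul_left h3 (by linarith)

theorem sd_left {κ1 κ2 z : ℝ} (h : κ1 < κ2)
    (hz : t (κ2 • e + f) - t (κ1 • e + f) = (κ2 - κ1) * z) {x : E n}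
    (hx : x ∈ CC K t e f κ1 \ CC K t e f κ2) : (inner ℝ e x : ℝ) < z := by
  obtain ⟨⟨hxK, h2⟩, h1⟩ := hx
  have h2' : t (κ1 • e + f) ≤ inner ℝ (κ1 • e + f) x := h2
  have h1' : inner ℝ (κ2 • e + f) x < t (κ2 • e + f) := by
    by_contra hcon
    push Not at hcon
    exact h1 ⟨hxK, hcon⟩
  rw [ue] at h1' h2'
  have h3 : (κ2 - κ1) * inner ℝ e x < (κ2 - κ1) * z := by linarith
  exact lt_of_mul_lt_mul_left h3 (by linarith)

theorem ae_good (P : Prof K X e f) : ∀ᵐ x : E n, x ∈ K → ∃ κ, inner ℝ e x = zz X e f κ := by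
  have he := e_ne P
  have h1 := hyper_null he (supp K e)
  have h2 := hyper_null he (-supp K (-e))
  rw [ae_iff]
  refine measure_mono_null ?_ (measure_union_null h1 h2)
  intro x hx
  have hx' : ¬ (x ∈ K → ∃ κ, inner ℝ e x = zz X e f κ) := hx
  push Not at hx'
  obtain ⟨hxK, hno⟩ := hx'
  rcases (P.mem x).1 hxK with ⟨κ, hκ, _⟩ | h3 | h3
  · exact absurd hκ (hno κ)
  · left
    show inner ℝ e x = supp K e
    rw [h3, inner_smul_right, pp P.ef, mul_one]
  · right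
    show inner ℝ e x = -supp K (-e)
    rw [h3, inner_smul_right, pp P.ef, mul_one]

theorem CC_meas (D : Dat K δ lam X t) (κ : ℝ) : MeasurableSet (CC K t e f κ) :=
  cap_meas D.cs.cb.comp _ _

theorem CC_vol (D : Dat K δ lam X t) (P : Prof K X e f) (κ : ℝ) :
    volume (CC K t e f κ) = ENNReal.ofReal δ := D.tvol _ (ue_ne P.ef κ)

theorem CC_fin (D : Dat K δ lam X t) (κ : ℝ) : volume (CC K t e f κ) ≠ ∞ := cap_fin D.cs.cb _ _

theorem KI (D : Dat K δ lam X t) (P : Prof K X e f) {G g : ℝ → ℝ}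
    (hI : ∀ κ, IntegrableOn (fun x => G (inner ℝ e x)) (CC K t e f κ) ∧
      ∫ x in CC K t e f κ, G (inner ℝ e x) = lam * g κ) (κ1 κ2 g0 : ℝ) :
    lam * (g κ2 - g κ1) = (∫ x in CC K t e f κ2 \ CC K t e f κ1, (G (inner ℝ e x) - g0)) +
      ∫ x in CC K t e f κ1 \ CC K t e f κ2, (g0 - G (inner ℝ e x)) := by
  have hint : ∀ κ, IntegrableOn (fun x : E n => G (inner ℝ e x) - g0) (CC K t e f κ) := fun κ =>
    (hI κ).1.sub (integrableOn_const (CC_fin D κ))
  have hval : ∀ κ, ∫ x in CC K t e f κ, (G (inner ℝ e x) - g0) = lam * g κ - δ * g0 := by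
    intro κ
    rw [integral_sub (hI κ).1 (integrableOn_const (CC_fin D κ)), (hI κ).2, setIntegral_const,
      measureReal_def, CC_vol D P, ENNReal.toReal_ofReal D.cs.dpos.le, smul_eq_mul]
  have h1 := integral_inter_add_sdiff (CC_meas (e := e) (f := f) D κ1) (hint κ2)
  have h2 := integral_inter_add_sdiff (CC_meas (e := e) (f := f) D κ2) (hint κ1)
  have h3 : ∫ x in CC K t e f κ1 \ CC K t e f κ2, (g0 - G (inner ℝ e x)) =
      -∫ x in CC K t e f κ1 \ CC K t e f κ2, (G (inner ℝ e x) - g0) := by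
    rw [← integral_neg]
    congr 1
    ext x
    ring
  rw [h3]
  rw [hval, inter_comm] at h1
  rw [hval] at h2
  linarith

theorem int_ge {A S : Set (E n)} {F : E n → ℝ} (hS : MeasurableSet S) (hA : MeasurableSet A)
    (hSA : S ⊆ A) (hfin : volume A ≠ ∞) (hF : IntegrableOn F A)
    (hpos : ∀ᵐ x : E n, x ∈ A → 0 ≤ F x) {c : ℝ} (hc : ∀ᵐ x : E n, x ∈ S → c ≤ F x) :
    c * (volume S).toReal ≤ ∫ x in A, F x := by
  have h1 : ∫ x in S, F x ≤ ∫ x in A, F x := by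
    refine setIntegral_mono_set hF ?_ (LE.le.eventuallyLE hSA)
    exact (ae_restrict_iff' hA).2 hpos
  have h2 : ∫ _x in S, c ≤ ∫ x in S, F x := by
    refine integral_mono_ae (integrableOn_const ?_) (hF.mono_set hSA) ?_
    · exact ne_top_of_le_ne_top hfin (measure_mono hSA)
    · exact (ae_restrict_iff' hS).2 hc
  rw [setIntegral_const, smul_eq_mul, measureReal_def, mul_comm] at h2
  exact h2.trans h1

theorem KI2 (D : Dat K δ lam X t) (P : Prof K X e f) {G g : ℝ → ℝ}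
    (hG : ∀ κ, G (zz X e f κ) = g κ)
    (hI : ∀ κ, IntegrableOn (fun x => G (inner ℝ e x)) (CC K t e f κ) ∧
      ∫ x in CC K t e f κ, G (inner ℝ e x) = lam * g κ) {κ1 κ2 g0 : ℝ}
    (hR : ∀ x ∈ CC K t e f κ2 \ CC K t e f κ1, ∀ κ', inner ℝ e x = zz X e f κ' → g0 ≤ g κ')
    (hL : ∀ x ∈ CC K t e f κ1 \ CC K t e f κ2, ∀ κ', inner ℝ e x = zz X e f κ' → g κ' ≤ g0)
    {S1 S2 : Set (E n)} (hS1 : MeasurableSet S1) (hS2 : MeasurableSet S2)
    (hs1 : S1 ⊆ CC K t e f κ2 \ CC K t e f κ1) (hs2 : S2 ⊆ CC K t e f κ1 \ CC K t e f κ2) {c : ℝ}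
    (hc1 : ∀ x ∈ S1, ∀ κ', inner ℝ e x = zz X e f κ' → g0 + c ≤ g κ')
    (hc2 : ∀ x ∈ S2, ∀ κ', inner ℝ e x = zz X e f κ' → g κ' + c ≤ g0) :
    c * (volume S1).toReal + c * (volume S2).toReal ≤ lam * (g κ2 - g κ1) := by
  rw [KI D P hI κ1 κ2 g0]
  have hint : ∀ κ, IntegrableOn (fun x : E n => G (inner ℝ e x) - g0) (CC K t e f κ) := fun κ =>
    (hI κ).1.sub (integrableOn_const (CC_fin D κ))
  have hint' : ∀ κ, IntegrableOn (fun x : E n => g0 - G (inner ℝ e x)) (CC K t e f κ) := fun κ =>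
    (integrableOn_const (CC_fin D κ)).sub (hI κ).1
  have hsub : ∀ κ, CC K t e f κ ⊆ K := fun κ => cap_subset _ _
  refine add_le_add ?_ ?_
  · refine int_ge hS1 ((CC_meas D κ2).diff (CC_meas D κ1)) hs1
      (ne_top_of_le_ne_top (CC_fin D κ2) (measure_mono sdiff_subset))
      ((hint κ2).mono_set sdiff_subset) ?_ ?_
    · filter_upwards [ae_good P] with x hx hxA
      obtain ⟨κ', hκ'⟩ := hx (hsub κ2 hxA.1)
      have := hR x hxA κ' hκ'
      rw [hκ', hG]
      linarith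
    · filter_upwards [ae_good P] with x hx hxS
      obtain ⟨κ', hκ'⟩ := hx (hsub κ2 (hs1 hxS).1)
      have := hc1 x hxS κ' hκ'
      rw [hκ', hG]
      linarith
  · refine int_ge hS2 ((CC_meas D κ1).diff (CC_meas D κ2)) hs2
      (ne_top_of_le_ne_top (CC_fin D κ1) (measure_mono sdiff_subset))
      ((hint' κ1).mono_set sdiff_subset) ?_ ?_
    · filter_upwards [ae_good P] with x hx hxA
      obtain ⟨κ', hκ'⟩ := hx (hsub κ1 hxA.1)
      have := hL x hxA κ' hκ'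
      rw [hκ', hG]
      linarith
    · filter_upwards [ae_good P] with x hx hxS
      obtain ⟨κ', hκ'⟩ := hx (hsub κ1 (hs2 hxS).1)
      have := hc2 x hxS κ' hκ'
      rw [hκ', hG]
      linarith

theorem outer (D : Dat K δ lam X t) (P : Prof K X e f) : ∃ R : ℝ, 0 < R ∧
    (∀ κ, R ≤ κ → ∀ x ∈ K, ∀ κ', inner ℝ e x = zz X e f κ' →
      (R ≤ κ' → x ∈ CC K t e f κ) ∧ (κ' ≤ -R → x ∉ CC K t e f κ)) ∧
    (∀ κ, κ ≤ -R → ∀ x ∈ K, ∀ κ', inner ℝ e x = zz X e f κ' →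
      (R ≤ κ' → x ∉ CC K t e f κ) ∧ (κ' ≤ -R → x ∈ CC K t e f κ)) := by
  have hK := D.cs.cb
  have he := e_ne P
  have hef' : ON (-e) f := by
    refine ⟨by rw [norm_neg]; exact P.ef.p1, P.ef.q1, ?_⟩
    rw [inner_neg_left, P.ef.pq, neg_zero]
  obtain ⟨a, b, R0, ha, hb, hR0, hl⟩ := lev D P.ef
  obtain ⟨a', b', R0', ha', hb', hR0', hl'⟩ := lev D hef'
  rw [neg_neg] at ha'
  have hlt : -supp K (-e) < supp K e := by
    obtain ⟨x, hx⟩ := hK.int
    exact (lo_le hK (interior_subset hx) e).trans_lt (int_lt_supp hK hx he)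
  obtain ⟨y, hy1, hy2⟩ := exists_between (a₁ := max (-supp K (-e)) (max b (-a')))
    (a₂ := supp K e) (max_lt hlt (max_lt hb (by linarith)))
  obtain ⟨y', hy1', hy2'⟩ := exists_between (a₁ := -supp K (-e))
    (a₂ := min (supp K e) (min a (-b'))) (lt_min hlt (lt_min ha (by linarith)))
  rw [max_lt_iff, max_lt_iff] at hy1
  rw [lt_min_iff, lt_min_iff] at hy2'
  obtain ⟨κp, hκp⟩ := P.zsurj y hy1.1 hy2
  obtain ⟨κm, hκm⟩ := P.zsurj y' hy1' hy2'.1
  set R := max (max R0 R0') (max |κp| |κm|) with hR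
  have r1 : R0 ≤ R := (le_max_left _ _).trans (le_max_left _ _)
  have r2 : R0' ≤ R := (le_max_right _ _).trans (le_max_left _ _)
  have r3 : κp ≤ R := (le_abs_self _).trans ((le_max_left _ _).trans (le_max_right _ _))
  have r4 : -R ≤ κm := by
    have h1 : |κm| ≤ R := (le_max_right _ _).trans (le_max_right _ _)
    have h2 := neg_abs_le κm
    linarith
  have hmono := P.zmono.monotone
  refine ⟨R, lt_of_lt_of_le hR0 r1, ?_, ?_⟩
  · intro κ hκ x hx κ' hκ'
    obtain ⟨h1, h2⟩ := hl κ (r1.trans hκ) x hx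
    constructor
    · intro h3
      have h4 : zz X e f κp ≤ zz X e f κ' := hmono (r3.trans h3)
      exact ⟨hx, h1 (by linarith [hy1.2.1])⟩
    · intro h3 hxC
      have h4 : zz X e f κ' ≤ zz X e f κm := hmono (h3.trans r4)
      have h5 := h2 (by linarith [hy2'.2.1])
      have h6 : t (κ • e + f) ≤ inner ℝ (κ • e + f) x := hxC.2
      linarith
  · intro κ hκ x hx κ' hκ'
    obtain ⟨h1, h2⟩ := hl' (-κ) (by linarith) x hx
    rw [neg_smul_neg, inner_neg_left] at h1 h2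
    constructor
    · intro h3 hxC
      have h4 : zz X e f κp ≤ zz X e f κ' := hmono (r3.trans h3)
      have h5 := h2 (by linarith [hy1.2.2])
      have h6 : t (κ • e + f) ≤ inner ℝ (κ • e + f) x := hxC.2
      linarith
    · intro h3
      have h4 : zz X e f κ' ≤ zz X e f κm := hmono (h3.trans r4)
      exact ⟨hx, h1 (by linarith [hy2'.2.2])⟩

end Pool.Agent.Helper60.SY
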