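import Pool.Agent.Helper60.SY.Rln

/-!
# The one-dimensional maximum principle, second part (row RLN of project MP_a2630c_SY)
-/

open MeasureTheory Set Metric Real Filter Topology
open scoped RealInnerProductSpace ENNReal
open Pool.Agent.Helper16.Buoy (E cap)
open Pool.Agent.Helper73.HV (supp)
open Pool.Agent.Helper73.LR (CB vol GG Sol aff)
open Pool.Agent.Helper73.SY
open Pool.Agent.Helper51.HV (hyper_null cap_meas cap_subset int_on)
open Pool.Agent.Helper65.LR (le_supp supp_greatest cap_int)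

namespace Pool.Agent.Helper60.SY

variable {n : ℕ} {K : Set (E n)} {δ lam : ℝ} {X : E n → E n} {t : E n → ℝ} {e f : E n}

/-- Monotonicity outside a large interval. -/
theorem outer_mono (D : Dat K δ lam X t) (P : Prof K X e f) {G g : ℝ → ℝ}
    (hG : ∀ κ, G (zz X e f κ) = g κ)
    (hI : ∀ κ, IntegrableOn (fun x => G (inner ℝ e x)) (CC K t e f κ) ∧
      ∫ x in CC K t e f κ, G (inner ℝ e x) = lam * g κ) {R : ℝ} (hR : 0 < R)
    (hmon : MonotoneOn g (Icc (-R) R)) {κ1 κ2 : ℝ} (h12 : κ1 < κ2)
    (hout : ∀ x ∈ K, ∀ κ', inner ℝ e x = zz X e f κ' → (R ≤ κ' ∨ κ' ≤ -R) →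
      (x ∈ CC K t e f κ1 ↔ x ∈ CC K t e f κ2)) : g κ1 ≤ g κ2 := by
  obtain ⟨κc, hκc⟩ := zc D P h12
  set k0 := max (-R) (min κc R) with hk0
  have hk0m : k0 ∈ Icc (-R) R := by
    refine ⟨le_max_left _ _, max_le (by linarith) (min_le_right _ _)⟩
  have hsub : ∀ κ, CC K t e f κ ⊆ K := fun κ => cap_subset _ _
  have h1 := KI2 D P hG hI (κ1 := κ1) (κ2 := κ2) (g0 := g k0) (S1 := ∅) (S2 := ∅) (c := 0)
    (by
      intro x hx κ' hκ'
      have h3 : κc < κ' := by
        have := sd_right h12 hκc hx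
        rw [hκ'] at this
        exact P.zmono.lt_iff_lt.1 this
      have h4 : ¬ (R ≤ κ' ∨ κ' ≤ -R) := fun h5 =>
        hx.2 ((hout x (hsub _ hx.1) κ' hκ' h5).2 hx.1)
      push Not at h4
      refine hmon hk0m ⟨h4.2.le, h4.1.le⟩ ?_
      exact max_le h4.2.le ((min_le_left _ _).trans h3.le))
    (by
      intro x hx κ' hκ'
      have h3 : κ' < κc := by
        have := sd_left h12 hκc hx
        rw [hκ'] at this
        exact P.zmono.lt_iff_lt.1 this
      have h4 : ¬ (R ≤ κ' ∨ κ' ≤ -R) := fun h5 =>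
        hx.2 ((hout x (hsub _ hx.1) κ' hκ' h5).1 hx.1)
      push Not at h4
      refine hmon ⟨h4.2.le, h4.1.le⟩ hk0m ?_
      exact (le_min h3.le h4.1.le).trans (le_max_right _ _))
    MeasurableSet.empty MeasurableSet.empty (empty_subset _) (empty_subset _)
    (by intro x hx; exact absurd hx (notMem_empty x)) (by intro x hx; exact absurd hx (notMem_empty x))
  simp only [measure_empty, ENNReal.toReal_zero, mul_zero, add_zero] at h1
  have h2 := D.cs.lpos
  by_contra hcon
  push Not at hcon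
  nlinarith

/-- A point of the profile with smaller radius is an interior point. -/
theorem nhds_prof (P : Prof K X e f) {κ' : ℝ} {x0 : E n} (he : inner ℝ e x0 = zz X e f κ')
    (hs : ‖x0 - (inner ℝ e x0 : ℝ) • e‖ < ss X e f κ') : K ∈ 𝓝 x0 := by
  obtain ⟨σ, hσ1, hσ2⟩ := exists_between hs
  have h1 : ∀ᶠ κ'' in 𝓝 κ', σ < ss X e f κ'' :=
    (P.sC1.continuous.continuousAt).eventually (lt_mem_nhds hσ2)
  obtain ⟨η, hη, hb⟩ := Metric.eventually_nhds_iff_ball.1 h1
  have hc : Continuous (fun x : E n => (inner ℝ e x : ℝ)) := by fun_prop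
  have hc2 : Continuous (fun x : E n => ‖x - (inner ℝ e x : ℝ) • e‖) := by fun_prop
  have e1 : ∀ᶠ x in 𝓝 x0, zz X e f (κ' - η / 2) < inner ℝ e x :=
    hc.continuousAt.eventually (lt_mem_nhds (show zz X e f (κ' - η / 2) < inner ℝ e x0 by
      rw [he]; exact P.zmono (by linarith)))
  have e2 : ∀ᶠ x in 𝓝 x0, (inner ℝ e x : ℝ) < zz X e f (κ' + η / 2) :=
    hc.continuousAt.eventually (gt_mem_nhds (show inner ℝ e x0 < zz X e f (κ' + η / 2) by
      rw [he]; exact P.zmono (by linarith)))
  have e3 : ∀ᶠ x in 𝓝 x0, ‖x - (inner ℝ e x : ℝ) • e‖ < σ :=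
    hc2.continuousAt.eventually (gt_mem_nhds hσ1)
  filter_upwards [e1, e2, e3] with x h1 h2 h3
  obtain ⟨κ'', hκ''⟩ := P.zsurj (inner ℝ e x) ((P.zlo _).trans h1) (h2.trans (P.zup _))
  rw [← hκ''] at h1 h2
  have h4 := P.zmono.lt_iff_lt.1 h1
  have h5 := P.zmono.lt_iff_lt.1 h2
  refine (P.mem x).2 (Or.inl ⟨κ'', hκ''.symm, ?_⟩)
  have h6 := hb κ'' (by rw [mem_ball, Real.dist_eq, abs_lt]; constructor <;> linarith)
  exact h3.le.trans h6.le

/-- Interior points on the hyperplane with prescribed axial coordinate, and thin slabs there. -/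
theorem prof_slab (P : Prof K X e f) {k κ' τ a b : ℝ}
    (hJ : |k * zz X e f κ' - τ| < ss X e f κ') (ha : a < κ') (hb : κ' < b) :
    ∃ x0 : E n, inner ℝ (k • e + f) x0 = τ ∧
      K ∩ {x | zz X e f a < inner ℝ e x ∧ inner ℝ e x < zz X e f b} ∈ 𝓝 x0 := by
  set x0 : E n := zz X e f κ' • e + (τ - k * zz X e f κ') • f with hx0
  have h1 : inner ℝ e x0 = zz X e f κ' := by
    rw [hx0, inner_add_right, inner_smul_right, inner_smul_right, pp P.ef, P.ef.pq]
    ring
  have h2 : inner ℝ f x0 = τ - k * zz X e f κ' := by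
    rw [hx0, inner_add_right, inner_smul_right, inner_smul_right, qq P.ef, qp P.ef]
    ring
  refine ⟨x0, ?_, ?_⟩
  · rw [ue, h1, h2]; ring
  · have h3 : K ∈ 𝓝 x0 := by
      refine nhds_prof P h1 ?_
      have h4 : x0 - (inner ℝ e x0 : ℝ) • e = (τ - k * zz X e f κ') • f := by
        rw [h1, hx0]; abel
      rw [h4, norm_smul, P.ef.q1, mul_one, Real.norm_eq_abs, abs_sub_comm]
      exact hJ
    have hc : Continuous (fun x : E n => (inner ℝ e x : ℝ)) := by fun_prop
    refine inter_mem h3 (IsOpen.mem_nhds ?_ ?_)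
    · exact (isOpen_lt continuous_const hc).inter (isOpen_lt hc continuous_const)
    · show zz X e f a < inner ℝ e x0 ∧ inner ℝ e x0 < zz X e f b
      rw [h1]
      exact ⟨P.zmono ha, P.zmono hb⟩

theorem toReal_le {a : ℝ} (ha : 0 ≤ a) {m : ℝ≥0∞} (hm : m ≠ ∞) (h : ENNReal.ofReal a ≤ m) :
    a ≤ m.toReal := by
  have := ENNReal.toReal_mono hm h
  rwa [ENNReal.toReal_ofReal ha] at this

/-- The zero set of the derivative spreads along `J(k)`. -/
theorem spread (D : Dat K δ lam X t) (P : Prof K X e f) {G g : ℝ → ℝ}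
    (hG : ∀ κ, G (zz X e f κ) = g κ)
    (hI : ∀ κ, IntegrableOn (fun x => G (inner ℝ e x)) (CC K t e f κ) ∧
      ∫ x in CC K t e f κ, G (inner ℝ e x) = lam * g κ) (hmon : Monotone g) {k : ℝ}
    (hk : HasDerivAt g 0 k) {k0 : ℝ} (hJ : |k * zz X e f k0 - t (k • e + f)| < ss X e f k0)
    {g' : ℝ} (hg : HasDerivAt g g' k0) : g' ≤ 0 := by
  by_contra hcon
  push Not at hcon
  have hK := D.cs.cb
  have hsub : ∀ κ, CC K t e f κ ⊆ K := fun κ => cap_subset _ _
  -- strict increase on both sides of `k0`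
  have up : ∀ ρ : ℝ, 0 < ρ → g k0 < g (k0 + ρ) := by
    intro ρ hρ
    have h1 := hg.tendsto_slope_zero_right.eventually (lt_mem_nhds hcon)
    have h2 : ∀ᶠ s in 𝓝[>] (0:ℝ), s < ρ :=
      (gt_mem_nhds hρ).filter_mono nhdsWithin_le_nhds
    obtain ⟨s, ⟨h3, h4⟩, h5⟩ := ((h1.and h2).and self_mem_nhdsWithin).exists
    have h5' : 0 < s := h5
    rw [smul_eq_mul] at h3
    have h6 : 0 < g (k0 + s) - g k0 := by
      by_contra h7
      push Not at h7
      have := mul_nonpos_of_nonneg_of_nonpos (inv_nonneg.2 h5'.le) h7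
      linarith
    have h7 : g (k0 + s) ≤ g (k0 + ρ) := hmon (by linarith)
    linarith
  have down : ∀ ρ : ℝ, 0 < ρ → g (k0 - ρ) < g k0 := by
    intro ρ hρ
    have h1 := hg.tendsto_slope_zero_left.eventually (lt_mem_nhds hcon)
    have h2 : ∀ᶠ s in 𝓝[<] (0:ℝ), -ρ < s :=
      (lt_mem_nhds (by linarith : -ρ < (0:ℝ))).filter_mono nhdsWithin_le_nhds
    obtain ⟨s, ⟨h3, h4⟩, h5⟩ := ((h1.and h2).and self_mem_nhdsWithin).exists
    have h5' : s < 0 := h5
    rw [smul_eq_mul] at h3
    have h6 : g (k0 + s) - g k0 < 0 := by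
      by_contra h7
      push Not at h7
      have := mul_nonpos_of_nonpos_of_nonneg (inv_nonpos.2 h5'.le) h7
      linarith
    have h7 : g (k0 - ρ) ≤ g (k0 + s) := hmon (by linarith)
    linarith
  -- `J` is open
  have hJo : ∀ᶠ κ' in 𝓝 k0, |k * zz X e f κ' - t (k • e + f)| < ss X e f κ' := by
    have c1 : Continuous (fun κ' => |k * zz X e f κ' - t (k • e + f)|) := by
      have := P.zC1.continuous
      fun_prop
    exact (c1.continuousAt.eventually_lt P.sC1.continuous.continuousAt hJ)
  obtain ⟨η, hη, hb⟩ := Metric.eventually_nhds_iff_ball.1 hJo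
  have hJp : |k * zz X e f (k0 + η / 2) - t (k • e + f)| < ss X e f (k0 + η / 2) :=
    hb _ (by rw [mem_ball, Real.dist_eq, abs_lt]; constructor <;> linarith)
  have hJm : |k * zz X e f (k0 - η / 2) - t (k • e + f)| < ss X e f (k0 - η / 2) :=
    hb _ (by rw [mem_ball, Real.dist_eq, abs_lt]; constructor <;> linarith)
  obtain ⟨xp, hxp, hWp⟩ := prof_slab P hJp (a := k0 + η / 4) (b := k0 + η) (by linarith)
    (by linarith)
  obtain ⟨xm, hxm, hWm⟩ := prof_slab P hJm (a := k0 - η) (b := k0 - η / 4) (by linarith)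
    (by linarith)
  set u : E n := k • e + f with hu
  have hune : u ≠ 0 := ue_ne P.ef k
  obtain ⟨vp, hvp, bp, hbp, hsp⟩ := slab hWp hune hxp
  obtain ⟨vm, hvm, bm, hbm, hsm⟩ := slab hWm (neg_ne_zero.2 hune)
    (τ := -(t u)) (by rw [inner_neg_left, hxm])
  set gp := zz X e f (k0 + η / 4) - zz X e f k0 with hgp
  set gm := zz X e f k0 - zz X e f (k0 - η / 4) with hgm
  have hgp0 : 0 < gp := sub_pos.2 (P.zmono (by linarith))
  have hgm0 : 0 < gm := sub_pos.2 (P.zmono (by linarith))
  set cp := g (k0 + η / 4) - g k0 with hcp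
  set cm := g k0 - g (k0 - η / 4) with hcm
  have hcp0 : 0 < cp := sub_pos.2 (up _ (by linarith))
  have hcm0 : 0 < cm := sub_pos.2 (down _ (by linarith))
  set m := min (cp * (vp * gp)) (cm * (vm * gm)) with hm
  have hm0 : 0 < m := lt_min (by positivity) (by positivity)
  -- the main estimate
  have main : ∀ᶠ h in 𝓝[>] (0:ℝ), m * h ≤ lam * (g (k + h) - g k) := by
    have s1 : ∀ᶠ h in 𝓝[>] (0:ℝ), h < bp / gp :=
      (gt_mem_nhds (by positivity : (0:ℝ) < bp / gp)).filter_mono nhdsWithin_le_nhds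
    have s2 : ∀ᶠ h in 𝓝[>] (0:ℝ), h < bm / gm :=
      (gt_mem_nhds (by positivity : (0:ℝ) < bm / gm)).filter_mono nhdsWithin_le_nhds
    filter_upwards [s1, s2, self_mem_nhdsWithin] with h h1 h2 h3
    have h3' : 0 < h := h3
    have h12 : k < k + h := by linarith
    obtain ⟨κc, hκc⟩ := zc D P h12
    have hκc' := hκc
    rw [add_sub_cancel_left, ← hu] at hκc'
    have hRR : ∀ x ∈ CC K t e f (k + h) \ CC K t e f k, ∀ κ', inner ℝ e x = zz X e f κ' →
        g κc ≤ g κ' := by
      intro x hx κ' hκ'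
      have := sd_right h12 hκc hx
      rw [hκ'] at this
      exact hmon (P.zmono.lt_iff_lt.1 this).le
    have hLL : ∀ x ∈ CC K t e f k \ CC K t e f (k + h), ∀ κ', inner ℝ e x = zz X e f κ' →
        g κ' ≤ g κc := by
      intro x hx κ' hκ'
      have := sd_left h12 hκc hx
      rw [hκ'] at this
      exact hmon (P.zmono.lt_iff_lt.1 this).le
    have hopen : ∀ a b : ℝ, MeasurableSet {x : E n | a < inner ℝ e x ∧ inner ℝ e x < b} := by
      intro a b
      have hc : Continuous (fun x : E n => (inner ℝ e x : ℝ)) := by fun_prop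
      exact ((isOpen_lt continuous_const hc).inter (isOpen_lt hc continuous_const)).measurableSet
    rcases le_total κc k0 with hcase | hcase
    · set S : Set (E n) := (K ∩ {x | zz X e f (k0 + η / 4) < inner ℝ e x ∧
        inner ℝ e x < zz X e f (k0 + η)}) ∩ slb u (t u) (h * gp) with hS
      have hSm : MeasurableSet S :=
        (hK.comp.measurableSet.inter (hopen _ _)).inter (slb_open _ _ _).measurableSet
      have hSs : S ⊆ CC K t e f (k + h) \ CC K t e f k := by
        rintro x ⟨⟨hxK, hx1, hx2⟩, hx3, hx4⟩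
        refine ⟨⟨hxK, ?_⟩, ?_⟩
        · show t ((k + h) • e + f) ≤ inner ℝ ((k + h) • e + f) x
          have e1 : inner ℝ ((k + h) • e + f) x = (inner ℝ u x : ℝ) + h * inner ℝ e x := by
            rw [hu, ue, ue]; ring
          have e2 : zz X e f κc ≤ zz X e f k0 := P.zmono.monotone hcase
          have e3 : h * (zz X e f κc + gp) ≤ h * inner ℝ e x :=
            mul_le_mul_of_nonneg_left (by linarith) h3'.le
          rw [e1]
          nlinarith
        · rintro ⟨_, hx5⟩
          have : t u ≤ inner ℝ u x := hx5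
          linarith
      have h4 := KI2 D P hG hI hRR hLL hSm MeasurableSet.empty hSs (empty_subset _) (c := cp)
        (by
          intro x hx κ' hκ'
          have e1 := hx.1.2.1
          rw [hκ'] at e1
          have e2 := hmon (P.zmono.lt_iff_lt.1 e1).le
          have e3 := hmon hcase
          linarith) (by intro x hx; exact absurd hx (notMem_empty x))
      simp only [measure_empty, ENNReal.toReal_zero, mul_zero, add_zero] at h4
      have hh : h * gp < bp := by rwa [lt_div_iff₀ hgp0] at h1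
      have h5 := hsp (h * gp) (by positivity) hh
      have h6 : vp * (h * gp) ≤ (volume S).toReal :=
        toReal_le (by positivity) (ne_top_of_le_ne_top (CC_fin D (k + h))
          (measure_mono (hSs.trans sdiff_subset))) h5
      calc m * h ≤ cp * (vp * gp) * h := mul_le_mul_of_nonneg_right (min_le_left _ _) h3'.le
        _ = cp * (vp * (h * gp)) := by ring
        _ ≤ cp * (volume S).toReal := mul_le_mul_of_nonneg_left h6 hcp0.le
        _ ≤ _ := h4
    · set S : Set (E n) := (K ∩ {x | zz X e f (k0 - η) < inner ℝ e x ∧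
        inner ℝ e x < zz X e f (k0 - η / 4)}) ∩ slb (-u) (-(t u)) (h * gm) with hS
      have hSm : MeasurableSet S :=
        (hK.comp.measurableSet.inter (hopen _ _)).inter (slb_open _ _ _).measurableSet
      have hSs : S ⊆ CC K t e f k \ CC K t e f (k + h) := by
        rintro x ⟨⟨hxK, hx1, hx2⟩, hx3, hx4⟩
        rw [inner_neg_left] at hx3 hx4
        refine ⟨⟨hxK, ?_⟩, ?_⟩
        · show t u ≤ inner ℝ u x
          linarith
        · rintro ⟨_, hx5⟩
          have hx5' : t ((k + h) • e + f) ≤ inner ℝ ((k + h) • e + f) x := hx5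
          have e1 : inner ℝ ((k + h) • e + f) x = (inner ℝ u x : ℝ) + h * inner ℝ e x := by
            rw [hu, ue, ue]; ring
          have e2 : zz X e f k0 ≤ zz X e f κc := P.zmono.monotone hcase
          have e3 : h * inner ℝ e x ≤ h * (zz X e f κc - gm) :=
            mul_le_mul_of_nonneg_left (by linarith) h3'.le
          rw [e1] at hx5'
          nlinarith
      have h4 := KI2 D P hG hI hRR hLL MeasurableSet.empty hSm (empty_subset _) hSs (c := cm)
        (by intro x hx; exact absurd hx (notMem_empty x))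
        (by
          intro x hx κ' hκ'
          have e1 := hx.1.2.2
          rw [hκ'] at e1
          have e2 := hmon (P.zmono.lt_iff_lt.1 e1).le
          have e3 := hmon hcase
          linarith)
      simp only [measure_empty, ENNReal.toReal_zero, mul_zero, zero_add] at h4
      have hh : h * gm < bm := by rwa [lt_div_iff₀ hgm0] at h2
      have h5 := hsm (h * gm) (by positivity) hh
      have h6 : vm * (h * gm) ≤ (volume S).toReal :=
        toReal_le (by positivity) (ne_top_of_le_ne_top (CC_fin D k)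
          (measure_mono (hSs.trans sdiff_subset))) h5
      calc m * h ≤ cm * (vm * gm) * h := mul_le_mul_of_nonneg_right (min_le_right _ _) h3'.le
        _ = cm * (vm * (h * gm)) := by ring
        _ ≤ cm * (volume S).toReal := mul_le_mul_of_nonneg_left h6 hcm0.le
        _ ≤ _ := h4
  have hlam := D.cs.lpos
  have hlim := hk.tendsto_slope_zero_right
  have hle : m / lam ≤ 0 := by
    refine ge_of_tendsto hlim ?_
    filter_upwards [main, self_mem_nhdsWithin] with h h1 h2
    have h2' : 0 < h := h2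
    rw [smul_eq_mul, ← div_eq_inv_mul, div_le_div_iff₀ hlam h2']
    linarith
  have : 0 < m / lam := by positivity
  linarith

end Pool.Agent.Helper60.SY
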