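import Pool.Agent.Helper60.SY.Rln2

/-!
# The one-dimensional maximum principle, last part (row RLN of project MP_a2630c_SY)
-/

open MeasureTheory Set Metric Real Filter Topology
open scoped RealInnerProductSpace ENNReal
open Pool.Agent.Helper16.Buoy (E cap)
open Pool.Agent.Helper73.HV (supp)
open Pool.Agent.Helper73.LR (CB vol GG Sol aff)
open Pool.Agent.Helper73.SY
open Pool.Agent.Helper51.HV (hyper_null cap_meas cap_subset int_on)
open Pool.Agent.Helper65.LR (le_supp supp_greatest cap_int)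

namespace Pool.Agent.Helper60.SY

variable {n : ℕ} {K : Set (E n)} {δ lam : ℝ} {X : E n → E n} {t : E n → ℝ} {e f : E n}

theorem closer (D : Dat K δ lam X t) (P : Prof K X e f) (hS : RevSym K e) {k : ℝ} (hk : k ≠ 0) :
    ∃ k' : ℝ, |k'| < |k| ∧ |k * zz X e f k' - t (k • e + f)| < ss X e f k' := by
  have hK := D.cs.cb
  set u : E n := k • e + f with hu
  have hune : u ≠ 0 := ue_ne P.ef k
  have cz := P.zC1.continuous
  have cs := P.sC1.continuous
  have hval : ∀ κ : ℝ, κ * zz X e f κ + ss X e f κ = supp K (κ • e + f) := by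
    intro κ
    rw [← D.Xsup _ (ue_ne P.ef κ), ue]
    rfl
  have ha : 0 < k * zz X e f k + ss X e f k - t u := by
    rw [hval]
    have := D.tup u hune
    linarith
  have hb : 0 < t u - k * zz X e f (-k) + ss X e f (-k) := by
    have h1 := hval (-k)
    have h2 := D.tlo u hune
    have h3 : supp K (-u) ≤ supp K ((-k) • e + f) := by
      have hne : -u ≠ 0 := neg_ne_zero.2 hune
      set y := X (-u) with hy
      have hyK : y ∈ K := D.Xmem _ hne
      have hsy : sg f y ∈ K := by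
        have h4 := hS f P.ef.q1 P.ef.pq
        rw [← h4]
        exact ⟨y, hyK, rfl⟩
      rw [← D.Xsup _ hne, ← hy]
      have h5 := le_supp hK.comp hsy ((-k) • e + f)
      have h6 : inner ℝ ((-k) • e + f) (sg f y) = (inner ℝ (-u) y : ℝ) := by
        rw [ue, sg, inner_sub_right, inner_sub_right, inner_smul_right, inner_smul_right, P.ef.pq,
          qq P.ef, inner_neg_left, hu, ue]
        ring
      rw [h6] at h5
      exact h5
    linarith
  have hJo : IsOpen {κ' : ℝ | |k * zz X e f κ' - t u| < ss X e f κ'} := by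
    have c1 : Continuous (fun κ' => |k * zz X e f κ' - t u|) := by fun_prop
    exact isOpen_lt c1 cs
  have hconn := isPreconnected_Icc (a := -|k|) (b := |k|)
  have hkpos : 0 < |k| := abs_pos.2 hk
  have hU : IsOpen {κ' : ℝ | 0 < k * zz X e f κ' + ss X e f κ' - t u} :=
    isOpen_lt continuous_const (by fun_prop)
  have hV : IsOpen {κ' : ℝ | 0 < t u - k * zz X e f κ' + ss X e f κ'} :=
    isOpen_lt continuous_const (by fun_prop)
  have hcov : Icc (-|k|) |k| ⊆ {κ' : ℝ | 0 < k * zz X e f κ' + ss X e f κ' - t u} ∪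
      {κ' : ℝ | 0 < t u - k * zz X e f κ' + ss X e f κ'} := by
    intro κ' _
    have := P.spos κ'
    by_contra hcon
    rw [mem_union, not_or] at hcon
    have h1 : ¬ (0 < k * zz X e f κ' + ss X e f κ' - t u) := hcon.1
    have h2 : ¬ (0 < t u - k * zz X e f κ' + ss X e f κ') := hcon.2
    linarith
  obtain ⟨κ0, hκ0, h1, h2⟩ := hconn _ _ hU hV hcov
    ⟨k, ⟨neg_abs_le k, le_abs_self k⟩, ha⟩
    ⟨-k, ⟨by linarith [le_abs_self k], by linarith [neg_abs_le k]⟩, hb⟩
  have h1' : 0 < k * zz X e f κ0 + ss X e f κ0 - t u := h1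
  have h2' : 0 < t u - k * zz X e f κ0 + ss X e f κ0 := h2
  have hmem : κ0 ∈ {κ' : ℝ | |k * zz X e f κ' - t u| < ss X e f κ'} := by
    show |k * zz X e f κ0 - t u| < ss X e f κ0
    rw [abs_lt]
    constructor <;> linarith
  have hcl : κ0 ∈ closure (Ioo (-|k|) |k|) := by
    rw [closure_Ioo (by linarith)]
    exact hκ0
  obtain ⟨κ1, hκ1, hκ1'⟩ := mem_closure_iff.1 hcl _ hJo hmem
  exact ⟨κ1, abs_lt.2 ⟨hκ1'.1, hκ1'.2⟩, hκ1⟩

theorem core (D : Dat K δ lam X t) (P : Prof K X e f) (hS : RevSym K e) {G g : ℝ → ℝ}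
    (hG : ∀ κ, G (zz X e f κ) = g κ)
    (hI : ∀ κ, IntegrableOn (fun x => G (inner ℝ e x)) (CC K t e f κ) ∧
      ∫ x in CC K t e f κ, G (inner ℝ e x) = lam * g κ) (hgd : ContDiff ℝ 1 g) {R : ℝ}
    (hR : 0 < R)
    (ho1 : ∀ κ, R ≤ κ → ∀ x ∈ K, ∀ κ', inner ℝ e x = zz X e f κ' →
      (R ≤ κ' → x ∈ CC K t e f κ) ∧ (κ' ≤ -R → x ∉ CC K t e f κ))
    (ho2 : ∀ κ, κ ≤ -R → ∀ x ∈ K, ∀ κ', inner ℝ e x = zz X e f κ' →
      (R ≤ κ' → x ∉ CC K t e f κ) ∧ (κ' ≤ -R → x ∈ CC K t e f κ))
    (hin : ∀ κ ∈ Icc (-R) R, 0 ≤ deriv g κ) {k1 : ℝ} (hk1 : deriv g k1 = 0) :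
    (∀ κ, 0 ≤ deriv g κ) ∧ deriv g 0 = 0 := by
  have hdiff : Differentiable ℝ g := hgd.differentiable (by norm_num)
  have hcd : Continuous (deriv g) := hgd.continuous_deriv (by norm_num)
  have hmon : MonotoneOn g (Icc (-R) R) := by
    refine monotoneOn_of_deriv_nonneg (convex_Icc _ _) hdiff.continuous.continuousOn
      hdiff.differentiableOn ?_
    intro κ hκ
    exact hin κ (interior_subset hκ)
  have hpos : ∀ κ, 0 ≤ deriv g κ := by
    intro κ
    rcases le_or_gt R κ with h1 | h1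
    · have h2 := (hdiff κ).hasDerivAt.tendsto_slope_zero_right
      refine ge_of_tendsto h2 ?_
      filter_upwards [self_mem_nhdsWithin] with h hh
      have hh' : 0 < h := hh
      have h3 : g κ ≤ g (κ + h) := by
        refine outer_mono D P hG hI hR hmon (by linarith) ?_
        intro x hx κ' hκ' h4
        have h5 := ho1 κ h1 x hx κ' hκ'
        have h6 := ho1 (κ + h) (by linarith) x hx κ' hκ'
        rcases h4 with h4 | h4
        · exact ⟨fun _ => h6.1 h4, fun _ => h5.1 h4⟩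
        · exact ⟨fun h7 => absurd h7 (h5.2 h4), fun h7 => absurd h7 (h6.2 h4)⟩
      rw [smul_eq_mul]
      exact mul_nonneg (inv_nonneg.2 hh'.le) (by linarith)
    · rcases le_or_gt κ (-R) with h2 | h2
      · have h3 := (hdiff κ).hasDerivAt.tendsto_slope_zero_left
        refine ge_of_tendsto h3 ?_
        filter_upwards [self_mem_nhdsWithin] with h hh
        have hh' : h < 0 := hh
        have h3 : g (κ + h) ≤ g κ := by
          refine outer_mono D P hG hI hR hmon (by linarith) ?_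
          intro x hx κ' hκ' h4
          have h5 := ho2 κ h2 x hx κ' hκ'
          have h6 := ho2 (κ + h) (by linarith) x hx κ' hκ'
          rcases h4 with h4 | h4
          · exact ⟨fun h7 => absurd h7 (h6.1 h4), fun h7 => absurd h7 (h5.1 h4)⟩
          · exact ⟨fun _ => h5.2 h4, fun _ => h6.2 h4⟩
        rw [smul_eq_mul]
        exact mul_nonneg_of_nonpos_of_nonpos (inv_nonpos.2 hh'.le) (by linarith)
      · exact hin κ ⟨h2.le, h1.le⟩
  refine ⟨hpos, ?_⟩
  have hmono : Monotone g := monotone_of_deriv_nonneg hdiff hpos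
  have hcomp : IsCompact (Icc (-|k1|) |k1| ∩ {κ | deriv g κ = 0}) :=
    isCompact_Icc.inter_right (isClosed_eq hcd continuous_const)
  obtain ⟨k, ⟨hk, hkz⟩, hkmin⟩ := hcomp.exists_isMinOn (f := fun κ : ℝ => |κ|)
    ⟨k1, ⟨neg_abs_le k1, le_abs_self k1⟩, hk1⟩ (by fun_prop)
  have hkz' : deriv g k = 0 := hkz
  by_cases hk0 : k = 0
  · rwa [hk0] at hkz'
  · exfalso
    obtain ⟨k', hk'1, hk'2⟩ := closer D P hS hk0
    have h1 : HasDerivAt g 0 k := by
      rw [← hkz']
      exact (hdiff k).hasDerivAt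
    have h2 := spread D P hG hI hmono h1 hk'2 (hdiff k').hasDerivAt
    have h3 : deriv g k' = 0 := le_antisymm h2 (hpos k')
    have h4 : |k| ≤ |k1| := abs_le.2 hk
    have h5 : k' ∈ Icc (-|k1|) |k1| ∩ {κ | deriv g κ = 0} :=
      ⟨abs_le.1 (hk'1.le.trans h4), h3⟩
    have h6 : |k| ≤ |k'| := hkmin h5
    linarith

/-- Row RLN. -/
theorem rlin : S_rlin := by
  intro n K δ lam X t e f _ D hS P hyp
  have hK := D.cs.cb
  obtain ⟨R, hR, ho1, ho2⟩ := outer D P
  have hzi : Function.Injective (zz X e f) := P.zmono.injective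
  set w : ℝ → ℝ := fun κ => -2 * κ * ss X e f κ with hw
  set Ω : ℝ → ℝ := fun y => w (Function.invFun (zz X e f) y) with hΩ
  have hΩz : ∀ κ, Ω (zz X e f κ) = w κ := by
    intro κ
    simp only [hΩ]
    rw [Function.leftInverse_invFun hzi κ]
  have hypΩ := hyp (Ω := Ω) hΩz
  have hwd : ContDiff ℝ 1 w := by
    have := P.sC1
    simp only [hw]
    fun_prop
  have hzd := P.zC1
  have hz' : ∀ κ, 0 < deriv (zz X e f) κ := P.zd
  have dz : Differentiable ℝ (zz X e f) := hzd.differentiable (by norm_num)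
  have dw : Differentiable ℝ w := hwd.differentiable (by norm_num)
  have cdz : Continuous (deriv (zz X e f)) := hzd.continuous_deriv (by norm_num)
  have cdw : Continuous (deriv w) := hwd.continuous_deriv (by norm_num)
  have hTc : Continuous (fun κ => deriv w κ / deriv (zz X e f) κ) :=
    cdw.div cdz (fun κ => (hz' κ).ne')
  have hne : (Icc (-R) R).Nonempty := ⟨0, by constructor <;> linarith⟩
  obtain ⟨kM, _, hkM'⟩ := isCompact_Icc.exists_isMaxOn hne hTc.continuousOn
  obtain ⟨km, _, hkm'⟩ := isCompact_Icc.exists_isMinOn hne hTc.continuousOn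
  set M := deriv w kM / deriv (zz X e f) kM with hM
  set m := deriv w km / deriv (zz X e f) km with hm
  -- moments
  have hz1 : ∀ κ, IntegrableOn (fun x : E n => (inner ℝ e x : ℝ)) (CC K t e f κ) := fun κ =>
    cap_int hK.comp _ _ (by fun_prop)
  have hz2 : ∀ κ, ∫ x in CC K t e f κ, (inner ℝ e x : ℝ) = lam * zz X e f κ := by
    intro κ
    have h1 : IntegrableOn (fun x : E n => x) (CC K t e f κ) :=
      (int_on hK.comp continuous_id).mono_set (cap_subset _ _)
    have h2 := integral_inner (𝕜 := ℝ) h1 e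
    rw [h2]
    have h3 := D.mom _ (ue_ne P.ef κ)
    unfold CC
    rw [h3, inner_smul_right]
    rfl
  have hgen : ∀ α β : ℝ, ∀ κ, IntegrableOn (fun x : E n => α * inner ℝ e x + β * Ω (inner ℝ e x))
      (CC K t e f κ) ∧ ∫ x in CC K t e f κ, (α * inner ℝ e x + β * Ω (inner ℝ e x)) =
      lam * (α * zz X e f κ + β * w κ) := by
    intro α β κ
    have h1 : IntegrableOn (fun x : E n => α * inner ℝ e x) (CC K t e f κ) := (hz1 κ).const_mul α
    have h2 : IntegrableOn (fun x : E n => β * Ω (inner ℝ e x)) (CC K t e f κ) :=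
      (hypΩ κ).1.const_mul β
    refine ⟨h1.add h2, ?_⟩
    rw [integral_add h1 h2, integral_const_mul, integral_const_mul, hz2 κ]
    have h3 := (hypΩ κ).2
    rw [hΩz] at h3
    unfold CC
    rw [h3]
    ring
  have hder : ∀ α β κ : ℝ, deriv (fun κ => α * zz X e f κ + β * w κ) κ =
      α * deriv (zz X e f) κ + β * deriv w κ := by
    intro α β κ
    exact (((dz κ).hasDerivAt.const_mul α).add ((dw κ).hasDerivAt.const_mul β)).deriv
  have hTle : ∀ κ ∈ Icc (-R) R, deriv w κ ≤ M * deriv (zz X e f) κ := by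
    intro κ hκ
    have h1 : deriv w κ / deriv (zz X e f) κ ≤ M := hkM' hκ
    rwa [div_le_iff₀ (hz' κ)] at h1
  have hTge : ∀ κ ∈ Icc (-R) R, m * deriv (zz X e f) κ ≤ deriv w κ := by
    intro κ hκ
    have h1 : m ≤ deriv w κ / deriv (zz X e f) κ := hkm' hκ
    rwa [le_div_iff₀ (hz' κ)] at h1
  have c1 := core D P hS (G := fun y => M * y + (-1) * Ω y)
    (g := fun κ => M * zz X e f κ + (-1) * w κ) (fun κ => by simp only [hΩz]) (hgen M (-1))
    (by fun_prop) hR ho1 ho2 (by
      intro κ hκ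
      rw [hder]
      have := hTle κ hκ
      linarith) (k1 := kM) (by
      rw [hder, hM, div_mul_cancel₀ _ (hz' kM).ne']
      ring)
  have c2 := core D P hS (G := fun y => (-m) * y + 1 * Ω y)
    (g := fun κ => (-m) * zz X e f κ + 1 * w κ) (fun κ => by simp only [hΩz]) (hgen (-m) 1)
    (by fun_prop) hR ho1 ho2 (by
      intro κ hκ
      rw [hder]
      have := hTge κ hκ
      linarith) (k1 := km) (by
      rw [hder, hm, neg_mul, div_mul_cancel₀ _ (hz' km).ne']
      ring)
  obtain ⟨c1a, c1b⟩ := c1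
  obtain ⟨c2a, c2b⟩ := c2
  rw [hder] at c1b c2b
  have hMm : M = m := by
    have h1 : M * deriv (zz X e f) 0 = m * deriv (zz X e f) 0 := by linarith
    exact mul_right_cancel₀ (hz' 0).ne' h1
  have hzero : ∀ κ, deriv (fun κ => M * zz X e f κ + (-1) * w κ) κ = 0 := by
    intro κ
    have h1 := c1a κ
    have h2 := c2a κ
    rw [hder] at h1 h2 ⊢
    rw [← hMm] at h2
    linarith
  have hconst := is_const_of_deriv_eq_zero
    (f := fun κ => M * zz X e f κ + (-1) * w κ) (by
      intro κ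
      exact (((dz κ).const_mul M).add ((dw κ).const_mul (-1)))) hzero
  refine ⟨M, -(M * zz X e f 0 + (-1) * w 0), ?_⟩
  intro κ
  have h1 : M * zz X e f κ + (-1) * w κ = M * zz X e f 0 + (-1) * w 0 := hconst κ 0
  have h2 : w κ = -2 * κ * ss X e f κ := rfl
  rw [← h2]
  linarith

end Pool.Agent.Helper60.SY
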