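import Pool.Agent.Helper60.SY.Stb
import Pool.Agent.Helper65.LR.Lev
import Pool.Agent.Helper65.LR.Rh
import Pool.Agent.Helper51.HV.J

/-!
# Thin slabs of a neighbourhood (for row RLN of project MP_a2630c_SY)
-/

open MeasureTheory Set Metric Real Filter Topology
open scoped RealInnerProductSpace ENNReal
open Pool.Agent.Helper16.Buoy (E cap)
open Pool.Agent.Helper51.HV (hyper_null)

namespace Pool.Agent.Helper60.SY

variable {n : ℕ}

/-- The thin slab below the hyperplane `<u,x> = τ`. -/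
def slb (u : E n) (τ h : ℝ) : Set (E n) := {x | τ - h < inner ℝ u x ∧ (inner ℝ u x : ℝ) < τ}

theorem slb_open (u : E n) (τ h : ℝ) : IsOpen (slb u τ h) := by
  have h1 : Continuous (fun x : E n => (inner ℝ u x : ℝ)) := by fun_prop
  exact (isOpen_lt continuous_const h1).inter (isOpen_lt h1 continuous_const)

theorem slab_shift {x0 u : E n} {ρ τ h : ℝ} (hu : u ≠ 0) {j : ℕ}
    (hj : j * h ≤ ρ * ‖u‖) (hh : 0 ≤ h) :
    volume (ball x0 ρ ∩ slb u (τ - j * h) h) ≤ volume (ball x0 (2 * ρ) ∩ slb u τ h) := by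
  have hn : 0 < ‖u‖ := norm_pos_iff.2 hu
  set c : E n := (j * h / ‖u‖ ^ 2) • u with hc
  have h1 : (fun x => x + c) '' (ball x0 ρ ∩ slb u (τ - j * h) h) ⊆
      ball x0 (2 * ρ) ∩ slb u τ h := by
    rintro _ ⟨x, ⟨hx1, hx2, hx3⟩, rfl⟩
    have hin : inner ℝ u (x + c) = (inner ℝ u x : ℝ) + j * h := by
      rw [inner_add_right, hc, inner_smul_right, real_inner_self_eq_norm_sq]
      field_simp
    refine ⟨?_, ?_, ?_⟩
    · rw [mem_ball, dist_eq_norm] at hx1 ⊢
      have h2 : ‖c‖ ≤ ρ := by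
        rw [hc, norm_smul, Real.norm_eq_abs, abs_of_nonneg (by positivity), div_mul_eq_mul_div,
          div_le_iff₀ (by positivity)]
        calc (j * h) * ‖u‖ ≤ (ρ * ‖u‖) * ‖u‖ := mul_le_mul_of_nonneg_right hj hn.le
          _ = ρ * ‖u‖ ^ 2 := by ring
      have h3 : ‖x + c - x0‖ ≤ ‖x - x0‖ + ‖c‖ := by
        have : x + c - x0 = (x - x0) + c := by abel
        rw [this]
        exact norm_add_le _ _
      linarith
    · simp only
      rw [hin]; linarith
    · simp only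
      rw [hin]; linarith
  calc volume (ball x0 ρ ∩ slb u (τ - j * h) h)
      = volume ((fun x => x + c) '' (ball x0 ρ ∩ slb u (τ - j * h) h)) := by
        rw [image_add_right, measure_preimage_add_right]
    _ ≤ _ := measure_mono h1

theorem slab_sum {x0 u : E n} {ρ τ h : ℝ} (hu : u ≠ 0) (hh : 0 ≤ h) (J : ℕ)
    (hJ : J * h ≤ ρ * ‖u‖) :
    volume (ball x0 ρ ∩ slb u τ (J * h)) ≤ J * volume (ball x0 (2 * ρ) ∩ slb u τ h) := by
  induction J with
  | zero =>
    have : ball x0 ρ ∩ slb u τ ((0 : ℕ) * h) = ∅ := by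
      ext x
      simp only [slb, mem_inter_iff, mem_ofPred_eq, mem_empty_iff_false, iff_false, Nat.cast_zero,
        zero_mul, sub_zero]
      rintro ⟨_, h1, h2⟩
      linarith
    rw [this]
    simp
  | succ J ih =>
    have hJ' : (J : ℝ) * h ≤ ρ * ‖u‖ := by
      refine le_trans ?_ hJ
      push_cast
      nlinarith
    have h1 : ball x0 ρ ∩ slb u τ ((J + 1 : ℕ) * h) ⊆ (ball x0 ρ ∩ slb u τ (J * h)) ∪
        ({x : E n | inner ℝ u x = τ - J * h} ∪ (ball x0 ρ ∩ slb u (τ - J * h) h)) := by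
      rintro x ⟨hx1, hx2, hx3⟩
      push_cast at hx2
      rcases lt_trichotomy (inner ℝ u x : ℝ) (τ - J * h) with h4 | h4 | h4
      · exact Or.inr (Or.inr ⟨hx1, by linarith, h4⟩)
      · exact Or.inr (Or.inl h4)
      · exact Or.inl ⟨hx1, h4, hx3⟩
    calc volume (ball x0 ρ ∩ slb u τ ((J + 1 : ℕ) * h))
        ≤ volume ((ball x0 ρ ∩ slb u τ (J * h)) ∪
        ({x : E n | inner ℝ u x = τ - J * h} ∪ (ball x0 ρ ∩ slb u (τ - J * h) h))) :=
          measure_mono h1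
      _ ≤ volume (ball x0 ρ ∩ slb u τ (J * h)) +
        (volume {x : E n | inner ℝ u x = τ - J * h} + volume (ball x0 ρ ∩ slb u (τ - J * h) h)) :=
          (measure_union_le _ _).trans (add_le_add_right (measure_union_le _ _) _)
      _ = volume (ball x0 ρ ∩ slb u τ (J * h)) + volume (ball x0 ρ ∩ slb u (τ - J * h) h) := by
          rw [hyper_null hu, zero_add]
      _ ≤ J * volume (ball x0 (2 * ρ) ∩ slb u τ h) + volume (ball x0 (2 * ρ) ∩ slb u τ h) :=
          add_le_add (ih hJ') (slab_shift hu hJ' hh)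
      _ = (J + 1 : ℕ) * volume (ball x0 (2 * ρ) ∩ slb u τ h) := by
          push_cast
          rw [add_mul, one_mul]

theorem slab {W : Set (E n)} {x0 u : E n} {τ : ℝ} (hW : W ∈ 𝓝 x0) (hu : u ≠ 0)
    (hx : inner ℝ u x0 = τ) : ∃ v : ℝ, 0 < v ∧ ∃ h0 : ℝ, 0 < h0 ∧ ∀ h : ℝ, 0 < h → h < h0 →
      ENNReal.ofReal (v * h) ≤ volume (W ∩ slb u τ h) := by
  obtain ⟨r, hr, hball⟩ := Metric.mem_nhds_iff.1 hW
  set ρ := r / 2 with hρ
  have hρ0 : 0 < ρ := by positivity
  have hn : 0 < ‖u‖ := norm_pos_iff.2 hu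
  set V := (volume (ball x0 ρ ∩ slb u τ (ρ * ‖u‖ / 2))).toReal with hV
  have hfin : ∀ (S : Set (E n)) (ρ' : ℝ), volume (ball x0 ρ' ∩ S) ≠ ∞ := fun S ρ' =>
    ne_top_of_le_ne_top measure_ball_lt_top.ne (measure_mono inter_subset_left)
  have hVpos : 0 < V := by
    refine ENNReal.toReal_pos ?_ (hfin _ _)
    refine (IsOpen.measure_pos volume (isOpen_ball.inter (slb_open _ _ _)) ?_).ne'
    refine ⟨x0 - (ρ / (4 * ‖u‖)) • u, ?_, ?_, ?_⟩
    · rw [mem_ball, dist_eq_norm]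
      have : x0 - (ρ / (4 * ‖u‖)) • u - x0 = -((ρ / (4 * ‖u‖)) • u) := by abel
      rw [this, norm_neg, norm_smul, Real.norm_eq_abs, abs_of_pos (by positivity)]
      have : ρ / (4 * ‖u‖) * ‖u‖ = ρ / 4 := by field_simp
      rw [this]
      linarith
    · rw [inner_sub_right, inner_smul_right, hx, real_inner_self_eq_norm_sq]
      have : ρ / (4 * ‖u‖) * ‖u‖ ^ 2 = ρ * ‖u‖ / 4 := by field_simp
      rw [this]
      have : 0 < ρ * ‖u‖ := by positivity
      linarith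
    · rw [inner_sub_right, inner_smul_right, hx, real_inner_self_eq_norm_sq]
      have : 0 < ρ / (4 * ‖u‖) * ‖u‖ ^ 2 := by positivity
      linarith
  refine ⟨V / (ρ * ‖u‖), by positivity, ρ * ‖u‖ / 2, by positivity, ?_⟩
  intro h hh0 hh1
  set J := ⌊ρ * ‖u‖ / h⌋₊ with hJ
  have hJ1 : (J : ℝ) ≤ ρ * ‖u‖ / h := Nat.floor_le (by positivity)
  have hJ2 : ρ * ‖u‖ / h < J + 1 := Nat.lt_floor_add_one _
  have hJ1' : (J : ℝ) * h ≤ ρ * ‖u‖ := by rwa [le_div_iff₀ hh0] at hJ1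
  have hJ2' : ρ * ‖u‖ < (J + 1) * h := by rwa [div_lt_iff₀ hh0] at hJ2
  have h1 := slab_sum (x0 := x0) (ρ := ρ) (τ := τ) hu hh0.le J hJ1'
  have h2 : volume (ball x0 ρ ∩ slb u τ (ρ * ‖u‖ / 2)) ≤ volume (ball x0 ρ ∩ slb u τ (J * h)) := by
    refine measure_mono ?_
    rintro x ⟨hx1, hx2, hx3⟩
    exact ⟨hx1, by nlinarith, hx3⟩
  have h3 := h2.trans h1
  have h4 : V ≤ J * (volume (ball x0 (2 * ρ) ∩ slb u τ h)).toReal := by
    have := ENNReal.toReal_mono (ENNReal.mul_ne_top (ENNReal.natCast_ne_top J) (hfin _ _)) h3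
    rwa [ENNReal.toReal_mul, ENNReal.toReal_natCast] at this
  set S := (volume (ball x0 (2 * ρ) ∩ slb u τ h)).toReal with hS
  have hS0 : 0 ≤ S := ENNReal.toReal_nonneg
  have h5 : V / (ρ * ‖u‖) * h ≤ S := by
    rw [div_mul_eq_mul_div, div_le_iff₀ (by positivity)]
    calc V * h ≤ (J * S) * h := mul_le_mul_of_nonneg_right h4 hh0.le
      _ = S * (J * h) := by ring
      _ ≤ S * (ρ * ‖u‖) := mul_le_mul_of_nonneg_left hJ1' hS0
  calc ENNReal.ofReal (V / (ρ * ‖u‖) * h) ≤ ENNReal.ofReal S := ENNReal.ofReal_le_ofReal h5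
    _ = volume (ball x0 (2 * ρ) ∩ slb u τ h) := ENNReal.ofReal_toReal (hfin _ _)
    _ ≤ volume (W ∩ slb u τ h) := by
      refine measure_mono (inter_subset_inter_left _ ?_)
      have : 2 * ρ = r := by rw [hρ]; ring
      rw [this]
      exact hball

end Pool.Agent.Helper60.SY
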