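import Pool.Agent.Helper73.SY.Stmts

/-!
# Stability of the sign of `DD` in the sector (row STB of project MP_a2630c_SY)
-/

open MeasureTheory Set Metric Real Filter Topology
open scoped RealInnerProductSpace ENNReal
open Pool.Agent.Helper16.Buoy (E)
open Pool.Agent.Helper73.SY

namespace Pool.Agent.Helper60.SY

section Algebra

variable {n : ℕ}

/-- `gg` as a continuous linear map. -/
noncomputable def ggL (ε : ℝ) (q : E n) : E n →L[ℝ] E n :=
  ContinuousLinearMap.id ℝ (E n) + (ε - 1) • ((innerSL ℝ q).smulRight q)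

theorem ggL_apply (ε : ℝ) (q x : E n) : ggL ε q x = gg ε q x := by
  simp [ggL, gg, smul_smul]

theorem gg_add (ε : ℝ) (q x y : E n) : gg ε q (x + y) = gg ε q x + gg ε q y := by
  simp only [← ggL_apply, map_add]

theorem gg_sub (ε : ℝ) (q x y : E n) : gg ε q (x - y) = gg ε q x - gg ε q y := by
  simp only [← ggL_apply, map_sub]

theorem gg_smul (ε : ℝ) (q : E n) (s : ℝ) (x : E n) : gg ε q (s • x) = s • gg ε q x := by
  simp only [← ggL_apply, map_smul]

theorem gg_neg (ε : ℝ) (q x : E n) : gg ε (-q) x = gg ε q x := by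
  simp [gg]

theorem gg_cont (q : E n) : Continuous (fun z : ℝ × E n => gg z.1 q z.2) := by
  unfold gg
  fun_prop

theorem rr_cont (p q : E n) : Continuous (fun x : E n => rr p q x) := by
  unfold rr
  fun_prop

theorem iot_neg (p q x : E n) : iot p (-q) x = iot p q x := by
  simp [iot]

theorem sec_neg (p q v : E n) : Sec p (-q) v ↔ Sec p q v := by
  simp [Sec]

theorem csec_neg (p q v : E n) : CSec p (-q) v ↔ CSec p q v := by
  simp [CSec]

theorem ww_neg (p q v : E n) : ww p (-q) v = ww p q v := by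
  simp [ww]

theorem on_neg {p q : E n} (h : ON p q) : ON p (-q) := by
  refine ⟨h.p1, by simpa using h.q1, ?_⟩
  rw [inner_neg_right, h.pq, neg_zero]

theorem qp {p q : E n} (h : ON p q) : inner ℝ q p = (0 : ℝ) := by
  rw [real_inner_comm]; exact h.pq

theorem pp {p q : E n} (h : ON p q) : inner ℝ p p = (1 : ℝ) := by
  rw [real_inner_self_eq_norm_sq, h.p1]; norm_num

theorem qq {p q : E n} (h : ON p q) : inner ℝ q q = (1 : ℝ) := by
  rw [real_inner_self_eq_norm_sq, h.q1]; norm_num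

/-- `iot` after `rr` is the reflection in the other wall. -/
theorem iot_rr {p q : E n} (h : ON p q) (x : E n) : iot p q (rr p q x) = rr p (-q) x := by
  simp only [iot, rr, inner_sub_right, inner_smul_right, pp h, qq h, qp h, h.pq, sub_neg_eq_add,
    inner_sub_left, inner_add_left]
  module

theorem gg_iot {p q : E n} (h : ON p q) (ε : ℝ) (x : E n) :
    gg ε q (iot p q x) = iot p q (gg ε q x) := by
  simp only [iot, gg, inner_sub_right, inner_add_right, inner_smul_right, qq h, qp h, h.pq]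
  module

theorem DD_neg {k : E n → ℝ} {p q : E n} (h : ON p q) (hi : ∀ x, k (iot p q x) = k x) (ε : ℝ)
    (v : E n) : DD k p (-q) ε v = DD k p q ε v := by
  unfold DD
  rw [gg_neg, gg_neg, ← iot_rr h, gg_iot h, hi]

theorem rr_smul (p q : E n) (s : ℝ) (x : E n) : rr p q (s • x) = s • rr p q x := by
  unfold rr
  rw [inner_smul_right]
  module

theorem DD_smul {k : E n → ℝ} (hk : ∀ (s : ℝ) (x : E n), 0 ≤ s → k (s • x) = s * k x) (p q : E n)
    (ε : ℝ) (v : E n) {s : ℝ} (hs : 0 ≤ s) : DD k p q ε (s • v) = s * DD k p q ε v := by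
  unfold DD
  rw [rr_smul, gg_smul, gg_smul, hk _ _ hs, hk _ _ hs]
  ring

theorem DD_cont {k : E n → ℝ} (hk : Continuous k) (p q : E n) :
    Continuous (fun z : ℝ × E n => DD k p q z.1 z.2) := by
  unfold DD
  have h1 := gg_cont q
  have h2 : Continuous (fun z : ℝ × E n => gg z.1 q (rr p q z.2)) := by
    have : Continuous (fun z : ℝ × E n => (z.1, rr p q z.2)) :=
      continuous_fst.prodMk ((rr_cont p q).comp continuous_snd)
    exact h1.comp this
  exact (hk.comp h1).sub (hk.comp h2)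

end Algebra

section Calculus

variable {n : ℕ}

theorem hasFDerivAt_of_C2 {k : E n → ℝ} (hk2 : ContDiffOn ℝ 2 k {0}ᶜ) {x : E n} (hx : x ≠ 0) :
    HasFDerivAt k (fderiv ℝ k x) x := by
  have h1 : ContDiffAt ℝ 2 k x := hk2.contDiffAt (isOpen_compl_singleton.mem_nhds hx)
  exact (h1.differentiableAt (by norm_num)).hasFDerivAt

theorem contDiffOn_fderiv {k : E n → ℝ} (hk2 : ContDiffOn ℝ 2 k {0}ᶜ) :
    ContDiffOn ℝ 1 (fderiv ℝ k) {0}ᶜ :=
  hk2.fderiv_of_isOpen isOpen_compl_singleton (by norm_num)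

theorem contAt_fderiv {k : E n → ℝ} (hk2 : ContDiffOn ℝ 2 k {0}ᶜ) {x : E n} (hx : x ≠ 0) :
    ContinuousAt (fderiv ℝ k) x :=
  (contDiffOn_fderiv hk2).continuousOn.continuousAt (isOpen_compl_singleton.mem_nhds hx)

theorem hasFDerivAt_fderiv {k : E n → ℝ} (hk2 : ContDiffOn ℝ 2 k {0}ᶜ) {x : E n} (hx : x ≠ 0) :
    HasFDerivAt (fderiv ℝ k) (fderiv ℝ (fderiv ℝ k) x) x := by
  have h1 : ContDiffAt ℝ 1 (fderiv ℝ k) x :=
    (contDiffOn_fderiv hk2).contDiffAt (isOpen_compl_singleton.mem_nhds hx)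
  exact (h1.differentiableAt (by norm_num)).hasFDerivAt

theorem contAt_fderiv2 {k : E n → ℝ} (hk2 : ContDiffOn ℝ 2 k {0}ᶜ) {x : E n} (hx : x ≠ 0) :
    ContinuousAt (fderiv ℝ (fderiv ℝ k)) x := by
  have h1 : ContDiffOn ℝ 0 (fderiv ℝ (fderiv ℝ k)) {0}ᶜ :=
    (contDiffOn_fderiv hk2).fderiv_of_isOpen isOpen_compl_singleton (by norm_num)
  exact h1.continuousOn.continuousAt (isOpen_compl_singleton.mem_nhds hx)

/-- Mixed second differences. -/
theorem mixed {k : E n → ℝ} (hk2 : ContDiffOn ℝ 2 k {0}ᶜ) {W : Set (E n)} (hW : ∀ z ∈ W, z ≠ 0)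
    {v0 A B : E n} {a b : ℝ} (ha : 0 < a) (hb : 0 < b)
    (hin : ∀ x y : ℝ, |x| ≤ a → |y| ≤ b → v0 + x • A + y • B ∈ W) :
    ∃ z ∈ W, k (v0 + a • A + b • B) - k (v0 + (-a) • A + b • B) - k (v0 + a • A + (-b) • B)
      + k (v0 + (-a) • A + (-b) • B) = 4 * a * b * fderiv ℝ (fderiv ℝ k) z B A := by
  have hd : ∀ x y : ℝ, |x| ≤ a → |y| ≤ b → HasDerivAt (fun s : ℝ => k (v0 + s • A + y • B))
      (fderiv ℝ k (v0 + x • A + y • B) A) x := by
    intro x y hx hy
    have h1 := hasFDerivAt_of_C2 hk2 (hW _ (hin x y hx hy))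
    have h2 : HasDerivAt (fun s : ℝ => v0 + s • A + y • B) A x := by
      have := ((hasDerivAt_id x).smul_const A).const_add v0
      simpa using this.add_const (y • B)
    exact h1.comp_hasDerivAt x h2
  have hbb : |b| ≤ b := by rw [abs_of_pos hb]
  have hbb' : |(-b)| ≤ b := by rw [abs_neg, abs_of_pos hb]
  set φ : ℝ → ℝ := fun s => k (v0 + s • A + b • B) - k (v0 + s • A + (-b) • B) with hφ
  have hφd : ∀ x : ℝ, |x| ≤ a → HasDerivAt φ (fderiv ℝ k (v0 + x • A + b • B) A -
      fderiv ℝ k (v0 + x • A + (-b) • B) A) x := by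
    intro x hx
    exact (hd x b hx hbb).sub (hd x (-b) hx hbb')
  obtain ⟨ξ, hξ, hξe⟩ := exists_hasDerivAt_eq_slope φ (fun x => fderiv ℝ k (v0 + x • A + b • B) A -
      fderiv ℝ k (v0 + x • A + (-b) • B) A) (a := -a) (b := a) (by linarith)
    (fun x hx => (hφd x (abs_le.2 hx)).continuousAt.continuousWithinAt)
    (fun x hx => hφd x (abs_le.2 ⟨hx.1.le, hx.2.le⟩))
  have hξa : |ξ| ≤ a := abs_le.2 ⟨hξ.1.le, hξ.2.le⟩
  have hψd : ∀ y : ℝ, |y| ≤ b → HasDerivAt (fun s : ℝ => fderiv ℝ k (v0 + ξ • A + s • B) A)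
      (fderiv ℝ (fderiv ℝ k) (v0 + ξ • A + y • B) B A) y := by
    intro y hy
    have h1 := hasFDerivAt_fderiv hk2 (hW _ (hin ξ y hξa hy))
    have h2 : HasDerivAt (fun s : ℝ => v0 + ξ • A + s • B) B y := by
      have := ((hasDerivAt_id y).smul_const B).const_add (v0 + ξ • A)
      simpa using this
    have h3 := h1.comp_hasDerivAt y h2
    have h4 := h3.clm_apply (hasDerivAt_const y A)
    simpa using h4
  obtain ⟨η, hη, hηe⟩ := exists_hasDerivAt_eq_slope (fun s : ℝ => fderiv ℝ k (v0 + ξ • A + s • B) A)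
    (fun y => fderiv ℝ (fderiv ℝ k) (v0 + ξ • A + y • B) B A) (a := -b) (b := b) (by linarith)
    (fun y hy => (hψd y (abs_le.2 hy)).continuousAt.continuousWithinAt)
    (fun y hy => hψd y (abs_le.2 ⟨hy.1.le, hy.2.le⟩))
  refine ⟨v0 + ξ • A + η • B, hin ξ η hξa (abs_le.2 ⟨hη.1.le, hη.2.le⟩), ?_⟩
  rw [eq_div_iff (by linarith)] at hξe hηe
  simp only [hφ] at hξe
  have : fderiv ℝ (fderiv ℝ k) (v0 + ξ • A + η • B) B A * (b - -b) * (a - -a) =
      k (v0 + a • A + b • B) - k (v0 + a • A + (-b) • B) -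
      (k (v0 + (-a) • A + b • B) - k (v0 + (-a) • A + (-b) • B)) := by
    rw [hηe, hξe]
  linarith

/-- Vectors of the form `u + s (p - q)`. -/
theorem lim_slope {g : ℝ → ℝ} {g' c : ℝ} (hg : HasDerivAt g g' 0)
    (h : ∀ᶠ s in 𝓝[>] (0 : ℝ), c * s ≤ g s - g (-s)) : c ≤ 2 * g' := by
  have h1 : HasDerivAt (fun s : ℝ => g s - g (-s)) (2 * g') 0 := by
    have h2 : HasDerivAt (fun s : ℝ => g (-s)) (-g') 0 := by
      have h3 : HasDerivAt g g' (-(0:ℝ)) := by simpa using hg
      have h4 := h3.comp (0:ℝ) (hasDerivAt_neg (0:ℝ))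
      simp only [mul_neg, mul_one] at h4
      exact h4
    have h5 : g' - -g' = 2 * g' := by ring
    rw [← h5]
    exact hg.sub h2
  have h2 := h1.tendsto_slope_zero_right
  refine ge_of_tendsto h2 ?_
  filter_upwards [h, self_mem_nhdsWithin] with s hs hs0
  simp only [zero_add, neg_zero, sub_self, sub_zero, smul_eq_mul]
  rw [← div_eq_inv_mul, le_div_iff₀ hs0]
  exact hs

end Calculus

section Local

variable {n : ℕ}

theorem inner_p_gg {p q : E n} (h : ON p q) (ε : ℝ) (x : E n) :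
    inner ℝ p (gg ε q x) = (inner ℝ p x : ℝ) := by
  simp only [gg, inner_add_right, inner_smul_right, h.pq]
  ring

theorem rr_wall {p q : E n} {u : E n} (hw : inner ℝ q u = (inner ℝ p u : ℝ)) :
    rr p q u = u := by
  simp only [rr, inner_sub_left, hw]
  simp

theorem wall {k : E n → ℝ} {p q : E n} (h : ON p q) (hk2 : ContDiffOn ℝ 2 k {0}ᶜ) {ε1 : ℝ}
    {u : E n} (hw : inner ℝ q u = (inner ℝ p u : ℝ)) (hpos : (0:ℝ) < inner ℝ p u) {c : ℝ}
    (hc : 0 < c) (hev : ∀ᶠ v in 𝓝 u, Sec p q v → c * ww p q v ≤ DD k p q ε1 v) :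
    ∀ᶠ z : ℝ × E n in 𝓝 (ε1, u), Sec p q z.2 → 0 ≤ DD k p q z.1 z.2 := by
  set u' := gg ε1 q u with hu'
  set a := gg ε1 q (p - q) with ha
  have hu0 : u' ≠ 0 := by
    intro h0
    have := inner_p_gg h ε1 u
    rw [← hu', h0, inner_zero_right] at this
    linarith
  have hru : rr p q u = u := rr_wall hw
  -- the derivative in the direction `a`
  have hA : c * (4 * inner ℝ p u) ≤ 2 * fderiv ℝ k u' a := by
    have hd : HasDerivAt (fun s : ℝ => k (u' + s • a)) (fderiv ℝ k u' a) 0 := by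
      have h1 : HasFDerivAt k (fderiv ℝ k u') (u' + (0:ℝ) • a) := by
        simpa using hasFDerivAt_of_C2 hk2 hu0
      have h2 : HasDerivAt (fun s : ℝ => u' + s • a) a 0 := by
        have := ((hasDerivAt_id (0:ℝ)).smul_const a).const_add u'
        simpa using this
      exact h1.comp_hasDerivAt (0:ℝ) h2
    refine lim_slope hd ?_
    have ht : Tendsto (fun s : ℝ => u + s • (p - q)) (𝓝[>] 0) (𝓝 u) := by
      have : Continuous (fun s : ℝ => u + s • (p - q)) := by fun_prop
      have h0 := this.tendsto 0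
      simp only [zero_smul, add_zero] at h0
      exact h0.mono_left nhdsWithin_le_nhds
    filter_upwards [ht.eventually hev, self_mem_nhdsWithin] with s hs hs0
    have hs0' : 0 < s := hs0
    have e1 : inner ℝ p (u + s • (p - q)) = (inner ℝ p u : ℝ) + s := by
      simp only [inner_add_right, inner_smul_right, inner_sub_right, pp h, h.pq]; ring
    have e2 : inner ℝ q (u + s • (p - q)) = (inner ℝ p u : ℝ) - s := by
      simp only [inner_add_right, inner_smul_right, inner_sub_right, qq h, qp h, hw]; ring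
    have hsec : Sec p q (u + s • (p - q)) := by
      unfold Sec
      rw [e1, e2, abs_lt]
      constructor <;> linarith
    have h3 := hs hsec
    have e3 : ww p q (u + s • (p - q)) = 4 * inner ℝ p u * s := by
      unfold ww
      rw [e1, e2]; ring
    have e4 : rr p q (u + s • (p - q)) = u + (-s) • (p - q) := by
      unfold rr
      rw [inner_sub_left, e1, e2]
      module
    have e5 : DD k p q ε1 (u + s • (p - q)) = k (u' + s • a) - k (u' + (-s) • a) := by
      unfold DD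
      rw [e4, gg_add, gg_add, gg_smul, gg_smul]
    rw [e3, e5] at h3
    calc c * (4 * inner ℝ p u) * s = c * (4 * inner ℝ p u * s) := by ring
      _ ≤ _ := h3
  have hApos : 0 < fderiv ℝ k u' a := by
    have : 0 < c * (4 * inner ℝ p u) := by positivity
    linarith
  -- continuity
  have hcont : ContinuousAt (fun z : ℝ × E n => fderiv ℝ k z.2 (gg z.1 q (p - q))) (ε1, u') := by
    have h1 : ContinuousAt (fun z : ℝ × E n => fderiv ℝ k z.2) (ε1, u') :=
      ContinuousAt.comp (x := (ε1, u')) (f := fun z : ℝ × E n => z.2) (g := fderiv ℝ k)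
        (contAt_fderiv hk2 hu0) continuousAt_snd
    have h2 : ContinuousAt (fun z : ℝ × E n => gg z.1 q (p - q)) (ε1, u') := by
      have : Continuous (fun z : ℝ × E n => gg z.1 q (p - q)) :=
        (gg_cont q).comp (continuous_fst.prodMk continuous_const)
      exact this.continuousAt
    exact h1.clm_apply h2
  have hev2 : ∀ᶠ z : ℝ × E n in 𝓝 (ε1, u'), 0 < fderiv ℝ k z.2 (gg z.1 q (p - q)) ∧ z.2 ≠ 0 := by
    have h1 := hcont.eventually (lt_mem_nhds hApos)
    have h2 : ∀ᶠ z : ℝ × E n in 𝓝 (ε1, u'), z.2 ≠ 0 :=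
      continuousAt_snd.eventually (isOpen_compl_singleton.mem_nhds hu0)
    exact h1.and h2
  rw [Metric.eventually_nhds_iff_ball] at hev2
  obtain ⟨ρ, hρ, hball⟩ := hev2
  have c1 : ∀ᶠ z : ℝ × E n in 𝓝 (ε1, u), gg z.1 q z.2 ∈ ball u' ρ :=
    (gg_cont q).continuousAt.eventually (ball_mem_nhds _ hρ)
  have c2 : ∀ᶠ z : ℝ × E n in 𝓝 (ε1, u), gg z.1 q (rr p q z.2) ∈ ball u' ρ := by
    have h1 : Continuous (fun z : ℝ × E n => gg z.1 q (rr p q z.2)) :=
      (gg_cont q).comp (continuous_fst.prodMk ((rr_cont p q).comp continuous_snd))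
    have h2 := h1.continuousAt (x := (ε1, u))
    have h3 : gg ε1 q (rr p q u) = u' := by rw [hru]
    refine h2.eventually ?_
    simp only [h3]
    exact ball_mem_nhds _ hρ
  have c3 : ∀ᶠ z : ℝ × E n in 𝓝 (ε1, u), z.1 ∈ ball ε1 ρ :=
    continuousAt_fst.eventually (ball_mem_nhds _ hρ)
  filter_upwards [c1, c2, c3] with z hz1 hz2 hz3 hsec
  obtain ⟨ζ, hζ, hζe⟩ := domain_mvt (f := k) (f' := fderiv ℝ k) (s := ball u' ρ)
    (fun x hx => by
      have : ((z.1, x) : ℝ × E n) ∈ ball (ε1, u') ρ := by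
        rw [mem_ball, Prod.dist_eq, max_lt_iff]
        exact ⟨hz3, hx⟩
      exact (hasFDerivAt_of_C2 hk2 (hball _ this).2).hasFDerivWithinAt)
    (convex_ball _ _) hz2 hz1
  have hζb : ζ ∈ ball u' ρ := (convex_ball u' ρ).segment_subset hz2 hz1 hζ
  have hζm : ((z.1, ζ) : ℝ × E n) ∈ ball (ε1, u') ρ := by
    rw [mem_ball, Prod.dist_eq, max_lt_iff]
    exact ⟨hz3, hζb⟩
  have e6 : gg z.1 q z.2 - gg z.1 q (rr p q z.2) = (inner ℝ (p - q) z.2 : ℝ) • gg z.1 q (p - q) := by
    rw [← gg_sub, ← gg_smul]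
    congr 1
    unfold rr
    abel
  unfold DD
  rw [hζe, e6, map_smul, smul_eq_mul]
  have h7 := (hball _ hζm).1
  have h8 : (0:ℝ) < inner ℝ (p - q) z.2 := by
    rw [inner_sub_left]
    have := (abs_lt.1 hsec).2
    linarith
  positivity

/-- The part orthogonal to the plane. -/
noncomputable def tr (p q x : E n) : E n := x - (inner ℝ p x : ℝ) • p - (inner ℝ q x : ℝ) • q

theorem corner_id {k : E n → ℝ} {p q : E n} (h : ON p q) (hi : ∀ x, k (iot p q x) = k x)
    (ε : ℝ) (v : E n) {a b : ℝ} (ha : a = inner ℝ (p - q) v / 2) (hb : b = inner ℝ (p + q) v / 2) :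
    2 * DD k p q ε v = k (tr p q v + a • gg ε q (p - q) + b • gg ε q (p + q))
      - k (tr p q v + (-a) • gg ε q (p - q) + b • gg ε q (p + q))
      - k (tr p q v + a • gg ε q (p - q) + (-b) • gg ε q (p + q))
      + k (tr p q v + (-a) • gg ε q (p - q) + (-b) • gg ε q (p + q)) := by
  have ha' : a = (inner ℝ p v - inner ℝ q v : ℝ) / 2 := by rw [ha, inner_sub_left]
  have hb' : b = (inner ℝ p v + inner ℝ q v : ℝ) / 2 := by rw [hb, inner_add_left]
  have e1 : gg ε q v = tr p q v + a • gg ε q (p - q) + b • gg ε q (p + q) := by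
    simp only [gg, tr, inner_sub_right, inner_add_right, qp h, qq h, ha', hb']
    module
  have e2 : gg ε q (rr p q v) = tr p q v + (-a) • gg ε q (p - q) + b • gg ε q (p + q) := by
    simp only [gg, tr, rr, inner_sub_right, inner_add_right, inner_smul_right, inner_sub_left,
      qp h, qq h, ha', hb']
    module
  have e3 : iot p q (gg ε q v) = tr p q v + (-a) • gg ε q (p - q) + (-b) • gg ε q (p + q) := by
    rw [e1]
    simp only [gg, tr, iot, inner_sub_right, inner_add_right, inner_smul_right,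
      qp h, qq h, pp h, h.pq, ha', hb']
    module
  have e4 : iot p q (gg ε q (rr p q v)) =
      tr p q v + a • gg ε q (p - q) + (-b) • gg ε q (p + q) := by
    rw [e2]
    simp only [gg, tr, iot, inner_sub_right, inner_add_right, inner_smul_right,
      qp h, qq h, pp h, h.pq, ha', hb']
    module
  have e5 : DD k p q ε v = k (gg ε q v) - k (gg ε q (rr p q v)) := rfl
  have e6 : DD k p q ε v = k (iot p q (gg ε q v)) - k (iot p q (gg ε q (rr p q v))) := by
    rw [hi, hi]; rfl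
  rw [← e1, ← e2, ← e3, ← e4]
  linarith

theorem corner {k : E n → ℝ} {p q : E n} (h : ON p q) (hk2 : ContDiffOn ℝ 2 k {0}ᶜ)
    (hi : ∀ x, k (iot p q x) = k x) {ε1 : ℝ}
    {u : E n} (hu : u ≠ 0) (hp : inner ℝ p u = (0:ℝ)) (hq : inner ℝ q u = (0 : ℝ)) {c : ℝ}
    (hc : 0 < c) (hev : ∀ᶠ v in 𝓝 u, Sec p q v → c * ww p q v ≤ DD k p q ε1 v) :
    ∀ᶠ z : ℝ × E n in 𝓝 (ε1, u), Sec p q z.2 → 0 ≤ DD k p q z.1 z.2 := by
  set m : ℝ × E n → ℝ := fun z => fderiv ℝ (fderiv ℝ k) z.2 (gg z.1 q (p + q)) (gg z.1 q (p - q))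
    with hm
  have hmc : ContinuousAt m (ε1, u) := by
    have h1 : ContinuousAt (fun z : ℝ × E n => fderiv ℝ (fderiv ℝ k) z.2) (ε1, u) :=
      ContinuousAt.comp (x := (ε1, u)) (f := fun z : ℝ × E n => z.2)
        (g := fderiv ℝ (fderiv ℝ k)) (contAt_fderiv2 hk2 hu) continuousAt_snd
    have h2 : ∀ w : E n, ContinuousAt (fun z : ℝ × E n => gg z.1 q w) (ε1, u) := by
      intro w
      have : Continuous (fun z : ℝ × E n => gg z.1 q w) :=
        (gg_cont q).comp (continuous_fst.prodMk continuous_const)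
      exact this.continuousAt
    exact (h1.clm_apply (h2 _)).clm_apply (h2 _)
  have htr : Continuous (fun x : E n => tr p q x) := by
    unfold tr
    fun_prop
  -- the size of the parallelogram
  set Φ : ℝ × E n → ℝ := fun z => ‖tr p q z.2 - u‖ + |inner ℝ (p - q) z.2 / 2| *
    ‖gg z.1 q (p - q)‖ + |inner ℝ (p + q) z.2 / 2| * ‖gg z.1 q (p + q)‖ with hΦ
  have hΦc : Continuous Φ := by
    have h2 : ∀ w : E n, Continuous (fun z : ℝ × E n => gg z.1 q w) := fun w =>
      (gg_cont q).comp (continuous_fst.prodMk continuous_const)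
    have h3 : Continuous (fun z : ℝ × E n => tr p q z.2) := htr.comp continuous_snd
    have h4 := h2 (p - q)
    have h5 := h2 (p + q)
    simp only [hΦ]
    fun_prop
  have hΦ0 : Φ (ε1, u) = 0 := by
    simp only [hΦ, tr, hp, hq, inner_sub_left, inner_add_left]
    simp
  have key : ∀ ρ : ℝ, ∀ z : ℝ × E n, Φ z < ρ → ∀ x y : ℝ, |x| ≤ |inner ℝ (p - q) z.2 / 2| →
      |y| ≤ |inner ℝ (p + q) z.2 / 2| →
      tr p q z.2 + x • gg z.1 q (p - q) + y • gg z.1 q (p + q) ∈ ball u ρ := by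
    intro ρ z hz x y hx hy
    rw [mem_ball, dist_eq_norm]
    have e1 : tr p q z.2 + x • gg z.1 q (p - q) + y • gg z.1 q (p + q) - u =
      (tr p q z.2 - u) + x • gg z.1 q (p - q) + y • gg z.1 q (p + q) := by abel
    rw [e1]
    have e2 : ‖x • gg z.1 q (p - q)‖ ≤ |inner ℝ (p - q) z.2 / 2| * ‖gg z.1 q (p - q)‖ := by
      rw [norm_smul, Real.norm_eq_abs]
      exact mul_le_mul_of_nonneg_right hx (norm_nonneg _)
    have e3 : ‖y • gg z.1 q (p + q)‖ ≤ |inner ℝ (p + q) z.2 / 2| * ‖gg z.1 q (p + q)‖ := by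
      rw [norm_smul, Real.norm_eq_abs]
      exact mul_le_mul_of_nonneg_right hy (norm_nonneg _)
    have e4 := norm_add₃_le (a := tr p q z.2 - u) (b := x • gg z.1 q (p - q))
      (c := y • gg z.1 q (p + q))
    simp only [hΦ] at hz
    linarith
  -- the difference through the second derivative
  have key2 : ∀ ρ : ℝ, (∀ w ∈ ball u ρ, w ≠ 0) → ∀ z : ℝ × E n, Φ z < ρ → Sec p q z.2 →
      ∃ w ∈ ball u ρ, DD k p q z.1 z.2 = ww p q z.2 / 2 * m (z.1, w) := by
    intro ρ hρ z hz hsec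
    have s1 := (abs_lt.1 hsec).1
    have s2 := (abs_lt.1 hsec).2
    have ha : (0:ℝ) < inner ℝ (p - q) z.2 / 2 := by rw [inner_sub_left]; linarith
    have hb : (0:ℝ) < inner ℝ (p + q) z.2 / 2 := by rw [inner_add_left]; linarith
    obtain ⟨w, hw, he⟩ := mixed hk2 (W := ball u ρ) hρ (v0 := tr p q z.2)
      (A := gg z.1 q (p - q)) (B := gg z.1 q (p + q)) ha hb (fun x y hx hy =>
        key ρ z hz x y (by rwa [abs_of_pos ha]) (by rwa [abs_of_pos hb]))
    refine ⟨w, hw, ?_⟩
    have h1 := corner_id h hi z.1 z.2 rfl rfl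
    rw [he] at h1
    have h2 : ww p q z.2 = inner ℝ (p - q) z.2 * inner ℝ (p + q) z.2 := by
      rw [inner_sub_left, inner_add_left]
      unfold ww
      ring
    simp only [hm]
    rw [h2]
    linarith
  have hmpos : 2 * c ≤ m (ε1, u) := by
    by_contra hcon
    push Not at hcon
    have h1 : ∀ᶠ z : ℝ × E n in 𝓝 (ε1, u), m z < 2 * c ∧ z.2 ≠ 0 :=
      (hmc.eventually (gt_mem_nhds hcon)).and
        (continuousAt_snd.eventually (isOpen_compl_singleton.mem_nhds hu))
    rw [Metric.eventually_nhds_iff_ball] at h1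
    obtain ⟨ρ, hρ, hball⟩ := h1
    have hmem : ∀ w ∈ ball u ρ, ((ε1, w) : ℝ × E n) ∈ ball (ε1, u) ρ := by
      intro w hw
      rw [mem_ball, Prod.dist_eq, max_lt_iff]
      exact ⟨by simpa using hρ, hw⟩
    have ht : Tendsto (fun s : ℝ => u + s • p) (𝓝[>] 0) (𝓝 u) := by
      have : Continuous (fun s : ℝ => u + s • p) := by fun_prop
      have h0 := this.tendsto 0
      simp only [zero_smul, add_zero] at h0
      exact h0.mono_left nhdsWithin_le_nhds
    have h2 : ∀ᶠ v in 𝓝 u, Φ (ε1, v) < ρ := by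
      have h3 : ContinuousAt (fun v => Φ (ε1, v)) u :=
        (hΦc.comp (continuous_const.prodMk continuous_id)).continuousAt
      exact h3.eventually (gt_mem_nhds (show Φ (ε1, u) < ρ by rw [hΦ0]; exact hρ))
    obtain ⟨s, hs, hs2, hs0⟩ :=
      ((ht.eventually hev).and ((ht.eventually h2).and self_mem_nhdsWithin)).exists
    have hs0' : 0 < s := hs0
    have e1 : inner ℝ p (u + s • p) = s := by
      simp only [inner_add_right, inner_smul_right, pp h, hp]; ring
    have e2 : inner ℝ q (u + s • p) = (0:ℝ) := by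
      simp only [inner_add_right, inner_smul_right, qp h, hq]; ring
    have hsec : Sec p q (u + s • p) := by
      unfold Sec
      rw [e1, e2, abs_zero]
      exact hs0'
    obtain ⟨w, hw, he⟩ := key2 ρ (fun w hw => (hball _ (hmem w hw)).2) (ε1, u + s • p) hs2 hsec
    have h4 := hs hsec
    have h5 : ww p q (u + s • p) = s ^ 2 := by
      unfold ww
      rw [e1, e2]; ring
    simp only at he
    rw [he, h5] at h4
    have h6 := (hball _ (hmem w hw)).1
    have h7 : 0 < s ^ 2 := by positivity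
    nlinarith
  have h1 : ∀ᶠ z : ℝ × E n in 𝓝 (ε1, u), 0 < m z ∧ z.2 ≠ 0 :=
    (hmc.eventually (lt_mem_nhds (by linarith))).and
      (continuousAt_snd.eventually (isOpen_compl_singleton.mem_nhds hu))
  rw [Metric.eventually_nhds_iff_ball] at h1
  obtain ⟨ρ, hρ, hball⟩ := h1
  have c3 : ∀ᶠ z : ℝ × E n in 𝓝 (ε1, u), z.1 ∈ ball ε1 ρ :=
    continuousAt_fst.eventually (ball_mem_nhds _ hρ)
  have c4 : ∀ᶠ z : ℝ × E n in 𝓝 (ε1, u), Φ z < ρ :=
    hΦc.continuousAt.eventually (gt_mem_nhds (by rw [hΦ0]; exact hρ))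
  have hnz : ∀ w ∈ ball u ρ, w ≠ 0 := by
    intro w hw
    have : ((ε1, w) : ℝ × E n) ∈ ball (ε1, u) ρ := by
      rw [mem_ball, Prod.dist_eq, max_lt_iff]
      exact ⟨by simpa using hρ, hw⟩
    exact (hball _ this).2
  filter_upwards [c3, c4] with z hz3 hz4 hsec
  obtain ⟨w, hw, he⟩ := key2 ρ hnz z hz4 hsec
  have hzm : ((z.1, w) : ℝ × E n) ∈ ball (ε1, u) ρ := by
    rw [mem_ball, Prod.dist_eq, max_lt_iff]
    exact ⟨hz3, hw⟩
  have h5 := (hball _ hzm).1
  rw [he]
  have h6 : 0 ≤ ww p q z.2 := by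
    unfold ww
    have := sq_lt_sq' (neg_lt_of_abs_lt hsec) (lt_of_abs_lt hsec)
    linarith
  positivity

end Local

/-- Row STB. -/
theorem stab : S_stab := by
  intro n k p q h hk hk2 hh hi ε1 _ hyp
  have hloc : ∀ u ∈ sphere (0 : E n) 1 ∩ {u | CSec p q u},
      ∀ᶠ z : ℝ × E n in 𝓝 (ε1, u), Sec p q z.2 → 0 ≤ DD k p q z.1 z.2 := by
    rintro u ⟨hu1, hu2⟩
    have hu0 : u ≠ 0 := by
      intro h0
      rw [h0] at hu1
      simp at hu1
    obtain ⟨c, hc, hev⟩ := hyp u hu0 hu2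
    have hu2' : |(inner ℝ q u : ℝ)| ≤ inner ℝ p u := hu2
    rcases lt_or_eq_of_le hu2' with hlt | heq
    · have h1 := (hev.self_of_nhds) hlt
      have h2 : 0 < ww p q u := by
        unfold ww
        have := sq_lt_sq' (neg_lt_of_abs_lt hlt) (lt_of_abs_lt hlt)
        linarith
      have h3 : 0 < DD k p q ε1 u := lt_of_lt_of_le (by positivity) h1
      have h4 : ContinuousAt (fun z : ℝ × E n => DD k p q z.1 z.2) (ε1, u) :=
        (DD_cont hk p q).continuousAt
      filter_upwards [h4.eventually (lt_mem_nhds h3)] with z hz _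
      exact hz.le
    · rcases eq_or_lt_of_le (abs_nonneg (inner ℝ q u : ℝ)) with h0 | h0
      · have hq : inner ℝ q u = (0:ℝ) := abs_eq_zero.1 h0.symm
        have hp : inner ℝ p u = (0:ℝ) := by rw [← heq, ← h0]
        exact corner h hk2 hi hu0 hp hq hc hev
      · have hppos : (0:ℝ) < inner ℝ p u := by rw [← heq]; exact h0
        rcases abs_choice (inner ℝ q u : ℝ) with h5 | h5
        · exact wall h hk2 (by rw [← h5, heq]) hppos hc hev
        · have hwall := wall (p := p) (q := -q) (on_neg h) hk2 (ε1 := ε1) (u := u)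
            (by rw [inner_neg_left, ← h5, heq]) hppos hc (by
              filter_upwards [hev] with v hv hsec
              rw [ww_neg, DD_neg h hi]
              exact hv ((sec_neg p q v).1 hsec))
          filter_upwards [hwall] with z hz hsec
          rw [← DD_neg h hi]
          exact hz ((sec_neg p q z.2).2 hsec)
  have hcomp : IsCompact (sphere (0 : E n) 1 ∩ {u | CSec p q u}) := by
    refine (isCompact_sphere _ _).inter_right ?_
    have c1 : Continuous (fun u : E n => |(inner ℝ q u : ℝ)|) := by fun_prop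
    have c2 : Continuous (fun u : E n => (inner ℝ p u : ℝ)) := by fun_prop
    exact isClosed_le c1 c2
  have hall := hcomp.eventually_forall_of_forall_eventually
    (P := fun ε v => Sec p q v → 0 ≤ DD k p q ε v) hloc
  rw [Metric.eventually_nhds_iff] at hall
  obtain ⟨η, hη, hall⟩ := hall
  refine ⟨η, hη, ?_⟩
  intro ε _ hε v hv
  have hv0 : v ≠ 0 := by
    intro h0
    rw [h0] at hv
    unfold Sec at hv
    simp at hv
  have hn : 0 < ‖v‖ := norm_pos_iff.2 hv0
  set w := ‖v‖⁻¹ • v with hw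
  have hvw : v = ‖v‖ • w := by
    rw [hw, smul_smul, mul_inv_cancel₀ hn.ne', one_smul]
  have hw1 : ‖w‖ = 1 := by
    rw [hw, norm_smul, norm_inv, norm_norm, inv_mul_cancel₀ hn.ne']
  have hws : Sec p q w := by
    unfold Sec at hv ⊢
    rw [hw, inner_smul_right, inner_smul_right, abs_mul, abs_of_pos (inv_pos.2 hn)]
    exact mul_lt_mul_of_pos_left hv (inv_pos.2 hn)
  have h1 := hall (y := ε) (by rw [Real.dist_eq]; exact hε) w
    ⟨by rw [mem_sphere_zero_iff_norm]; exact hw1, (le_of_lt hws : CSec p q w)⟩ hws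
  rw [hvw, DD_smul hh p q ε w hn.le]
  exact mul_nonneg hn.le h1

end Pool.Agent.Helper60.SY
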